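import Mathlib

/-! Large scale block for MP_151d89_pr: definitions and statements (real analysis only). -/

namespace Pool.Agent.MP_151d89_pr.H55

open Filter Topology

abbrev P := ℝ × ℝ

/-- number of lines: `(x + y - h)/2` -/
noncomputable def nu (h : P → ℝ) (z : P) : ℝ := (z.1 + z.2 - h z) / 2

def U (z : P) : ℝ := z.1 - z.2

def Lip (h : P → ℝ) : Prop :=
  h (0, 0) = 0 ∧ ∀ z w : P, h z - h w ≤ |z.1 - w.1| + |z.2 - w.2|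

/-- convexity of a bunch of lines under the pressure bound of the quadrant at `(X,Y)`, level `n0` -/
def CH (n : P → ℝ) (X Y n0 : ℝ) : Prop :=
  ∀ (a b c d p q : P) (k1 k' k2 : ℝ), n0 < k1 → k1 ≤ k' → k' ≤ k2 → k1 < k2 →
    U a < U c → U c < U b → U d = U c → d.2 ≤ c.2 → U p = U a → U q = U b →
    k2 < n a → k2 < n b → n c < k' → n d < k1 → n p < k1 → n q < k1 →
    X + k2 - n0 < p.1 → Y + k2 - n0 < q.2 →
    (k2 - k1) * ((U b - U a) * c.2 - (U b - U c) * a.2 - (U c - U a) * b.2) ≤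
      (U b - U a) * (k' - k1) * (c.2 - d.2) + 10 * (U c - U a) * (U b - U c) * (k1 - n0)
        + 10 * (U b - U a) * (k2 - k1) * (k2 - n0)

/-- no long thin oblique bunch -/
def NB (I : ℝ → ℝ → ℝ → ℕ) (n : P → ℝ) (X Y n0 : ℝ) : Prop :=
  ∀ (al be r : ℝ) (o : P) (k1 k2 : ℝ), 0 < al → 0 < be → 0 < r → n0 < k1 → k1 < k2 →
    k2 - n0 ≤ r * (k2 - k1) → X + k2 - n0 < o.1 →
    Y + k2 - n0 < o.2 - I al be r * (k2 - k1) * be →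
    (∀ i : ℕ, i ≤ I al be r →
      n (o.1 + i * (k2 - k1) * al, o.2 - i * (k2 - k1) * be) < k1 ∧
      k2 < n (o.1 + i * (k2 - k1) * al + r * (k2 - k1),
        o.2 - i * (k2 - k1) * be + r * (k2 - k1))) → False

def Pres (I : ℝ → ℝ → ℝ → ℕ) (n : P → ℝ) (X Y n0 : ℝ) : Prop := CH n X Y n0 ∧ NB I n X Y n0

/-- the pressure bound holds at every point -/
def Free (I : ℝ → ℝ → ℝ → ℕ) (n : P → ℝ) : Prop := ∀ X Y : ℝ, Pres I n X Y (n (X, Y))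

/-- exact convexity when the lines end vertically next to a descending south ray -/
def Zx (n : P → ℝ) : Prop :=
  (∀ y : ℝ, 0 ≤ y → n (0, -y) = 0) →
  (∀ η k b0 : ℝ, 0 < η → ∃ b, b0 ≤ b ∧ k < n (η * b, -(2 * b))) →
  ∀ (a b c p q : P) (k1 k2 : ℝ), 0 < k1 → k1 < k2 → U a < U c → U c < U b → U p = U a →
    U q = U b → k2 < n a → k2 < n b → n c < k1 → n p < k1 → n q < k1 → k2 < p.1 →
    (U b - U a) * c.2 ≤ (U b - U c) * a.2 + (U c - U a) * b.2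

/-- consequence of the Mermin-Wagner exit point -/
def G1 (I : ℝ → ℝ → ℝ → ℕ) (n : P → ℝ) : Prop :=
  ∀ L : ℝ, 0 < L → ∃ z : P, max |z.1| |z.2| = L ∧ n z = 0 ∧
    (0 < z.1 → z.2 < 0 → Pres I n 0 z.2 0) ∧ (z.1 < 0 → 0 < z.2 → Pres I n z.1 0 0)

def Adm (I : ℝ → ℝ → ℝ → ℕ) (h : P → ℝ) : Prop :=
  Free I (nu h) ∧ Zx (nu h) ∧ G1 I (nu h)

/-- rescaled function at real scale `R` -/
noncomputable def M (l : ℤ × ℤ → ℝ) (R : ℝ) (z : P) : ℝ := l (⌊R * z.1⌋, ⌊R * z.2⌋) / R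

def Lim (l : ℤ × ℤ → ℝ) (𝒰 : Ultrafilter ℝ) (h : P → ℝ) : Prop :=
  (𝒰 : Filter ℝ) ≤ atTop ∧ ∀ z : P, Tendsto (fun R => M l R z) 𝒰 (𝓝 (h z))

def LipZ (l : ℤ × ℤ → ℝ) : Prop :=
  l (0, 0) = 0 ∧ ∀ z w : ℤ × ℤ, l z - l w ≤ |(z.1 : ℝ) - w.1| + |(z.2 : ℝ) - w.2|

/-- The large scale theorem (paragraphs 4-7). -/
def BigStmt : Prop :=
  ∀ (I : ℝ → ℝ → ℝ → ℕ) (C : (ℤ × ℤ → ℝ) → Prop),
    (∀ l, C l → LipZ l) →
    (∀ l, C l → C (fun z => -l z)) →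
    (∀ l, C l → C (fun z => l (z.2, z.1))) →
    (∀ l, C l → C (fun z => l (-z.1, z.2))) →
    (∀ l 𝒰 h, C l → Lim l 𝒰 h → Adm I h) →
    ∀ l, C l → ∃ e : ℤ × ℤ, |e.1| + |e.2| = 1 ∧
      ∀ ε : ℝ, 0 < ε → ∀ᶠ n : ℕ in atTop, (1 - ε) * n ≤ l ((n : ℤ) • e)

/-- integer points along the ultrafilter -/
def LimSeqStmt : Prop :=
  ∀ l 𝒰 h, LipZ l → Lim l 𝒰 h → ∀ (p : ℝ → ℤ × ℤ) (z : P),
    Tendsto (fun R => ((p R).1 : ℝ) / R) 𝒰 (𝓝 z.1) → Tendsto (fun R => ((p R).2 : ℝ) / R) 𝒰 (𝓝 z.2) →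
    Tendsto (fun R => l (p R) / R) 𝒰 (𝓝 (h z))

end Pool.Agent.MP_151d89_pr.H55
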