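import Pool.Agent.MP_151d89_pr.H55.Spec

/-! Limits of the rescaled functions along an ultrafilter. -/

namespace Pool.Agent.MP_151d89_pr.H55

open Filter Topology

namespace LimA

theorem fl_tend (x : ℝ) : Tendsto (fun R : ℝ => ((⌊R * x⌋ : ℤ) : ℝ) / R) atTop (𝓝 x) := by
  have h0 : Tendsto (fun R : ℝ => R⁻¹) atTop (𝓝 0) := tendsto_inv_atTop_zero
  have h1 : Tendsto (fun R : ℝ => x - R⁻¹) atTop (𝓝 x) := by
    simpa using (tendsto_const_nhds (x := x)).sub h0
  refine tendsto_of_tendsto_of_tendsto_of_le_of_le' h1 tendsto_const_nhds ?_ ?_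
  · filter_upwards [eventually_gt_atTop (0 : ℝ)] with R hR
    rw [le_div_iff₀ hR]
    have := Int.lt_floor_add_one (R * x)
    have e : (x - R⁻¹) * R = R * x - 1 := by field_simp
    rw [e]; linarith
  · filter_upwards [eventually_gt_atTop (0 : ℝ)] with R hR
    rw [div_le_iff₀ hR]
    have := Int.floor_le (R * x)
    linarith

theorem abs_le_of {l : ℤ × ℤ → ℝ} (hl : LipZ l) (z w : ℤ × ℤ) :
    |l z - l w| ≤ |(z.1 : ℝ) - w.1| + |(z.2 : ℝ) - w.2| := by
  have a := hl.2 z w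
  have b := hl.2 w z
  rw [abs_sub_comm (w.1 : ℝ), abs_sub_comm (w.2 : ℝ)] at b
  rw [abs_le]; constructor <;> linarith

theorem div_le {l : ℤ × ℤ → ℝ} (hl : LipZ l) (z w : ℤ × ℤ) {R : ℝ} (hR : 0 < R) :
    |l z / R - l w / R| ≤ |(z.1 : ℝ) / R - w.1 / R| + |(z.2 : ℝ) / R - w.2 / R| := by
  rw [← sub_div, ← sub_div, ← sub_div, abs_div, abs_div, abs_div, abs_of_pos hR, ← add_div]
  exact div_le_div_of_nonneg_right (abs_le_of hl z w) hR.le

end LimA

open LimA

theorem limSeq : LimSeqStmt := by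
  intro l 𝒰 h hl hL p z h1 h2
  have a1 := (fl_tend z.1).mono_left hL.1
  have a2 := (fl_tend z.2).mono_left hL.1
  have b : Tendsto (fun R => |((p R).1 : ℝ) / R - ((⌊R * z.1⌋ : ℤ) : ℝ) / R| +
      |((p R).2 : ℝ) / R - ((⌊R * z.2⌋ : ℤ) : ℝ) / R|) 𝒰 (𝓝 0) := by
    simpa using ((h1.sub a1).abs).add ((h2.sub a2).abs)
  have c : Tendsto (fun R => l (p R) / R - M l R z) 𝒰 (𝓝 0) := by
    refine squeeze_zero_norm' ?_ b
    filter_upwards [hL.1 (eventually_gt_atTop (0 : ℝ))] with R hR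
    exact div_le hl (p R) (⌊R * z.1⌋, ⌊R * z.2⌋) hR
  simpa using c.add (hL.2 z)

theorem lim_row : LimStmt := by
  refine ⟨?_, ?_, ?_, ?_, ?_⟩
  · intro l 𝒰 h hl hL
    constructor
    · have a := hL.2 (0, 0)
      have e : (fun R => M l R (0, 0)) = fun _ => (0 : ℝ) := by
        funext R; simp [M, hl.1]
      rw [e] at a
      exact tendsto_nhds_unique a tendsto_const_nhds
    · intro z w
      have a1 := (fl_tend z.1).mono_left hL.1
      have a2 := (fl_tend z.2).mono_left hL.1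
      have b1 := (fl_tend w.1).mono_left hL.1
      have b2 := (fl_tend w.2).mono_left hL.1
      refine le_of_tendsto_of_tendsto ((hL.2 z).sub (hL.2 w))
        (((a1.sub b1).abs).add ((a2.sub b2).abs)) ?_
      filter_upwards [hL.1 (eventually_gt_atTop (0 : ℝ))] with R hR
      exact (le_abs_self _).trans
        (div_le hl (⌊R * z.1⌋, ⌊R * z.2⌋) (⌊R * w.1⌋, ⌊R * w.2⌋) hR)
  · intro l 𝒰 hl hU
    have key : ∀ z : P, ∃ a : ℝ, Tendsto (fun R => M l R z) 𝒰 (𝓝 a) := by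
      intro z
      have a1 := ((fl_tend z.1).mono_left hU).abs
      have a2 := ((fl_tend z.2).mono_left hU).abs
      have a3 := (a1.add a2).eventually (gt_mem_nhds (lt_add_one (|z.1| + |z.2|)))
      have hm : ∀ᶠ R in (𝒰 : Filter ℝ),
          M l R z ∈ Set.Icc (-(|z.1| + |z.2| + 1)) (|z.1| + |z.2| + 1) := by
        filter_upwards [hU (eventually_gt_atTop (0 : ℝ)), a3] with R hR h3
        have := div_le hl (⌊R * z.1⌋, ⌊R * z.2⌋) (0, 0) hR
        simp only [hl.1, zero_div, sub_zero, Int.cast_zero] at this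
        have e : |M l R z| ≤ |z.1| + |z.2| + 1 := this.trans h3.le
        exact abs_le.mp e
      obtain ⟨a, -, ha⟩ := (isCompact_Icc (a := -(|z.1| + |z.2| + 1))
        (b := |z.1| + |z.2| + 1)).ultrafilter_le_nhds (𝒰.map fun R => M l R z)
        (by rw [Ultrafilter.coe_map, le_principal_iff]; exact hm)
      exact ⟨a, ha⟩
    choose h hh using key
    exact ⟨h, hU, hh⟩
  · intro l 𝒰 h _ hL
    refine ⟨hL.1, fun z => ?_⟩
    have := (hL.2 z).neg
    simpa [M, neg, neg_div] using this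
  · intro l 𝒰 h _ hL
    exact ⟨hL.1, fun z => hL.2 (z.2, z.1)⟩
  · intro l 𝒰 h hl hL
    refine ⟨hL.1, fun z => ?_⟩
    have a1 := ((fl_tend z.1).mono_left hL.1).neg
    have a2 := (fl_tend z.2).mono_left hL.1
    exact limSeq l 𝒰 h hl hL (fun R => (-⌊R * z.1⌋, ⌊R * z.2⌋)) (-z.1, z.2)
      (by simpa [neg_div] using a1) a2

end Pool.Agent.MP_151d89_pr.H55
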