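import Pool.Agent.MP_151d89_pr.H55.Spec

/-! Row MIN: a minimal closed invariant set inside the blow-ups of a limit profile. -/

namespace Pool.Agent.MP_151d89_pr.H55

open Filter Topology Set

namespace MinA

/-- invariance under all positive scalings -/
def Inv (S : Set (P → ℝ)) : Prop := ∀ a : ℝ, 0 < a → ∀ h ∈ S, T a h ∈ S

/-- cluster points of the orbit along a filter of scales -/
def cl (F : Filter ℝ) (g : P → ℝ) : Set (P → ℝ) := {h | MapClusterPt h F fun a => T a g}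

theorem cont_T (a : ℝ) : Continuous (T a) := by
  refine continuous_pi fun z => ?_
  have h1 : Continuous fun h : P → ℝ => h (a * z.1, a * z.2) := continuous_apply _
  exact h1.div_const a

theorem T_T (a b : ℝ) (g : P → ℝ) : T a (T b g) = T (b * a) g := by
  funext z
  simp only [T, mul_assoc, div_div]

theorem closed_cl (F : Filter ℝ) (g : P → ℝ) : IsClosed (cl F g) := isClosed_setOfPred_clusterPt

theorem inv_cl {F : Filter ℝ} (hF : ∀ b : ℝ, 0 < b → Tendsto (fun a => a * b) F F) (g : P → ℝ) :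
    Inv (cl F g) := by
  intro b hb h hh
  have h1 : MapClusterPt (T b h) F (T b ∘ fun a => T a g) :=
    MapClusterPt.continuousAt_comp (cont_T b).continuousAt hh
  have h2 : (T b ∘ fun a => T a g) = (fun a => T a g) ∘ fun a => a * b := by
    funext a
    exact T_T b a g
  rw [h2] at h1
  exact MapClusterPt.of_comp (hF b hb) h1

theorem cl_sub {F : Filter ℝ} (h0 : ∀ᶠ a in F, 0 < a) {S : Set (P → ℝ)} (hc : IsClosed S)
    (hi : Inv S) {g : P → ℝ} (hg : g ∈ S) : cl F g ⊆ S := fun _ hh =>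
  hc.mem_of_mapClusterPt hh (h0.mono fun a ha => hi a ha g hg)

theorem cl_ne {F : Filter ℝ} [F.NeBot] (h0 : ∀ᶠ a in F, 0 < a) {S : Set (P → ℝ)}
    (hc : IsCompact S) (hi : Inv S) {g : P → ℝ} (hg : g ∈ S) : (cl F g).Nonempty := by
  have h1 : map (fun a => T a g) F ≤ 𝓟 S :=
    le_principal_iff.2 (mem_map.2 (h0.mono fun a ha => hi a ha g hg))
  obtain ⟨h, _, hh⟩ := hc h1
  exact ⟨h, hh⟩

theorem close {F : Filter ℝ} {g h : P → ℝ} (hh : h ∈ cl F g) (s : Finset P) {ε : ℝ} (hε : 0 < ε) :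
    ∃ᶠ a in F, ∀ z ∈ s, |T a g z - h z| < ε := by
  refine MapClusterPt.frequently hh (p := fun k => ∀ z ∈ s, |k z - h z| < ε) ?_
  rw [eventually_all_finset]
  intro z _
  have h1 : Continuous fun k : P → ℝ => |k z - h z| := ((continuous_apply z).sub continuous_const).abs
  refine h1.continuousAt.eventually_lt continuousAt_const ?_
  simpa using hε

theorem top_mul (b : ℝ) (hb : 0 < b) : Tendsto (fun a : ℝ => a * b) atTop atTop :=
  tendsto_id.atTop_mul_const hb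

theorem bot_mul (b : ℝ) (hb : 0 < b) : Tendsto (fun a : ℝ => a * b) (𝓝[>] 0) (𝓝[>] 0) := by
  refine tendsto_nhdsWithin_iff.2 ⟨?_, ?_⟩
  · have h1 : Tendsto (fun a : ℝ => a * b) (𝓝 0) (𝓝 (0 * b)) :=
      (continuous_id.mul continuous_const).tendsto 0
    rw [zero_mul] at h1
    exact h1.mono_left nhdsWithin_le_nhds
  · filter_upwards [self_mem_nhdsWithin] with a ha
    exact mul_pos ha hb

theorem bot_pos : ∀ᶠ a in 𝓝[>] (0 : ℝ), 0 < a := self_mem_nhdsWithin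

theorem bot_lt {δ : ℝ} (hδ : 0 < δ) : ∀ᶠ a in 𝓝[>] (0 : ℝ), a < δ :=
  nhdsWithin_le_nhds (eventually_lt_nhds hδ)

theorem al_of {g h : P → ℝ} (hh : h ∈ cl (𝓝[>] 0) g) : Al g h := by
  intro s ε δ hε hδ
  obtain ⟨a, h1, h2, h3⟩ := ((close hh s hε).and_eventually (bot_pos.and (bot_lt hδ))).exists
  exact ⟨a, h2, h3, h1⟩

theorem om_of {g h : P → ℝ} (hh : h ∈ cl atTop g) : Om g h := by
  intro s ε δ hε
  obtain ⟨a, h1, h2, h3⟩ :=
    ((close hh s hε).and_eventually ((eventually_gt_atTop 0).and (eventually_gt_atTop δ))).exists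
  exact ⟨a, h2, h3, h1⟩

/-- the limit set -/
def K (l : ℤ × ℤ → ℝ) : Set (P → ℝ) := {h | MapClusterPt h atTop (M l)}

theorem mem_K {l : ℤ × ℤ → ℝ} {h : P → ℝ} : h ∈ K l ↔ ∃ 𝒰, Lim l 𝒰 h := by
  unfold K Lim
  rw [mem_ofPred_eq, mapClusterPt_iff_ultrafilter]
  simp only [tendsto_pi_nhds]

theorem inv_K (l : ℤ × ℤ → ℝ) : Inv (K l) := by
  intro b hb h hh
  have h1 : MapClusterPt (T b h) atTop (T b ∘ M l) :=
    MapClusterPt.continuousAt_comp (cont_T b).continuousAt hh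
  have h2 : (T b ∘ M l) = M l ∘ fun a => a * b := by
    funext a z
    simp only [Function.comp, T, M, mul_assoc, div_div]
  rw [h2] at h1
  exact MapClusterPt.of_comp (top_mul b hb) h1

theorem lip_abs {h : P → ℝ} (hh : Lip h) (z : P) : |h z| ≤ |z.1| + |z.2| := by
  have h1 := hh.2 z (0, 0)
  have h2 := hh.2 (0, 0) z
  rw [hh.1] at h1 h2
  simp only [sub_zero, zero_sub, abs_neg] at h1 h2
  exact abs_le.2 ⟨by linarith, h1⟩

theorem compact_K (hl : LimStmt) {l : ℤ × ℤ → ℝ} (hz : LipZ l) : IsCompact (K l) := by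
  have h1 : IsCompact {h : P → ℝ | ∀ z, h z ∈ Icc (-(|z.1| + |z.2|)) (|z.1| + |z.2|)} :=
    isCompact_pi_infinite fun _ => isCompact_Icc
  refine h1.of_isClosed_subset isClosed_setOfPred_clusterPt fun h hh z => ?_
  obtain ⟨𝒰, hU⟩ := mem_K.1 hh
  exact abs_le.1 (lip_abs (hl.1 l 𝒰 h hz hU) z)

/-- a minimal closed invariant subset -/
theorem exists_min {S : Set (P → ℝ)} (hc : IsCompact S) (hcl : IsClosed S) (hn : S.Nonempty)
    (hi : Inv S) : ∃ K0 : Set (P → ℝ), K0 ⊆ S ∧ K0.Nonempty ∧ IsClosed K0 ∧ Inv K0 ∧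
      ∀ S' : Set (P → ℝ), S' ⊆ K0 → S'.Nonempty → IsClosed S' → Inv S' → K0 ⊆ S' := by
  obtain ⟨m, _, hm⟩ := zorn_superset_nonempty
    {A : Set (P → ℝ) | A ⊆ S ∧ A.Nonempty ∧ IsClosed A ∧ Inv A} (fun c hcS hch hne => by
      obtain ⟨A0, hA0⟩ := hne
      have : Nonempty c := ⟨⟨A0, hA0⟩⟩
      refine ⟨⋂₀ c, ⟨(sInter_subset_of_mem hA0).trans (hcS hA0).1, ?_,
        isClosed_sInter fun A hA => (hcS hA).2.2.1, fun a ha h hh A hA =>
          (hcS hA).2.2.2 a ha h (hh A hA)⟩, fun A hA => sInter_subset_of_mem hA⟩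
      refine IsCompact.nonempty_sInter_of_directed_nonempty_isCompact_isClosed ?_
        (fun A hA => (hcS hA).2.1)
        (fun A hA => hc.of_isClosed_subset (hcS hA).2.2.1 (hcS hA).1) fun A hA => (hcS hA).2.2.1
      intro A hA B hB
      rcases hch.total hA hB with h | h
      · exact ⟨A, hA, subset_rfl, h⟩
      · exact ⟨B, hB, h, subset_rfl⟩) S ⟨subset_rfl, hn, hcl, hi⟩
  exact ⟨m, hm.1.1, hm.1.2.1, hm.1.2.2.1, hm.1.2.2.2, fun S' h1 h2 h3 h4 =>
    hm.2 ⟨h1.trans hm.1.1, h2, h3, h4⟩ h1⟩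

theorem tight {h : P → ℝ} (hh : Lip h) {e : P} (he : |e.1| + |e.2| = 1) {s : ℝ}
    (hs : s = 1 ∨ s = -1) (h1 : 1 ≤ s * h (e.1, e.2)) {t : ℝ} (t0 : 0 ≤ t) (t1 : t ≤ 1) :
    h (t * e.1, t * e.2) = s * t := by
  have a1 := lip_abs hh (t * e.1, t * e.2)
  have a2 := hh.2 (e.1, e.2) (t * e.1, t * e.2)
  have a3 := hh.2 (t * e.1, t * e.2) (e.1, e.2)
  have e1 : |t * e.1| + |t * e.2| = t := by
    rw [abs_mul, abs_mul, abs_of_nonneg t0, ← mul_add, he, mul_one]
  have e2 : |e.1 - t * e.1| + |e.2 - t * e.2| = 1 - t := by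
    rw [← one_sub_mul, ← one_sub_mul, abs_mul, abs_mul, abs_of_nonneg (sub_nonneg.2 t1),
      ← mul_add, he, mul_one]
  simp only at a1 a2 a3
  rw [abs_sub_comm (t * e.1), abs_sub_comm (t * e.2)] at a3
  rw [e1] at a1
  rw [e2] at a2 a3
  obtain ⟨a4, a5⟩ := abs_le.1 a1
  rcases hs with rfl | rfl <;> linarith

end MinA

open MinA

theorem min_row (hl : LimStmt) : MinStmt := by
  intro l 𝒰 g hz hg
  have hK := compact_K hl hz
  have hKc : IsClosed (K l) := isClosed_setOfPred_clusterPt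
  have hgK : g ∈ K l := mem_K.2 ⟨𝒰, hg⟩
  have s1 : cl (𝓝[>] 0) g ⊆ K l := cl_sub bot_pos hKc (inv_K l) hgK
  obtain ⟨K0, k1, ⟨h, hh⟩, k3, k4, k5⟩ := exists_min (hK.of_isClosed_subset (closed_cl _ g) s1)
    (closed_cl _ g) (cl_ne bot_pos hK (inv_K l) hgK) (inv_cl bot_mul g)
  have k6 : IsCompact K0 := hK.of_isClosed_subset k3 (k1.trans s1)
  have lipK : ∀ k ∈ K0, Lip k := fun k hk => by
    obtain ⟨𝒱, hV⟩ := mem_K.1 (s1 (k1 hk))
    exact hl.1 l 𝒱 k hz hV
  obtain ⟨𝒱, hV⟩ := mem_K.1 (s1 (k1 hh))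
  refine ⟨𝒱, h, hV, al_of (k1 hh), om_of (k5 _ (cl_sub (eventually_gt_atTop 0) k3 k4 hh)
    (cl_ne (eventually_gt_atTop 0) k6 k4 hh) (closed_cl _ h) (inv_cl top_mul h) hh), ?_⟩
  intro e he s hs
  have he1 : |e.1| + |e.2| = 1 := by rcases he with rfl | rfl | rfl | rfl <;> simp
  have hF : Continuous fun k : P → ℝ => s * k (e.1, e.2) :=
    continuous_const.mul (continuous_apply _)
  obtain ⟨h0, hh0, hmax⟩ := k6.exists_isMaxOn ⟨h, hh⟩ hF.continuousOn
  by_cases hc : s * h0 (e.1, e.2) < 1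
  · refine Or.inr ⟨1 - s * h0 (e.1, e.2), by linarith, fun t ht => ?_⟩
    rcases ht.eq_or_lt with rfl | ht
    · simp [(lipK h hh).1]
    · have h1 : s * T t h (e.1, e.2) ≤ s * h0 (e.1, e.2) := hmax (k4 t ht h hh)
      simp only [T] at h1
      rw [← mul_div_assoc, div_le_iff₀ ht] at h1
      linarith
  · refine Or.inl fun t ht => ?_
    have h1 : h ∈ cl (𝓝[>] 0) h0 := k5 _ (cl_sub bot_pos k3 k4 hh0) (cl_ne bot_pos k6 k4 hh0)
      (closed_cl _ h0) (inv_cl bot_mul h0) hh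
    have h2 : IsClosed {k : P → ℝ | k (t * e.1, t * e.2) = s * t} :=
      isClosed_eq (continuous_apply _) continuous_const
    refine h2.mem_of_mapClusterPt h1 ?_
    have h3 : (0 : ℝ) < 1 / (t + 1) := by positivity
    filter_upwards [bot_pos, bot_lt h3] with a ha ha'
    have h4 : a * t ≤ 1 := by
      rw [lt_div_iff₀ (by linarith)] at ha'
      nlinarith
    have h5 := tight (lipK h0 hh0) he1 hs (not_lt.1 hc) (mul_nonneg ha.le ht) h4
    simp only [mem_ofPred_eq, T]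
    rw [← mul_assoc, ← mul_assoc, h5]
    field_simp

end Pool.Agent.MP_151d89_pr.H55
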