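import Pool.Agent.MP_151d89_pr.H55.Spec

/-! Row PERS: an ascending east ray of a blow-up persists. -/

namespace Pool.Agent.MP_151d89_pr.H55

namespace PersA

theorem monoX {g : P → ℝ} (hg : Lip g) {x x' : ℝ} (y : ℝ) (h : x ≤ x') :
    nu g (x, y) ≤ nu g (x', y) := by
  have h1 := hg.2 (x', y) (x, y)
  simp only [sub_self, abs_zero, add_zero] at h1
  rw [abs_of_nonneg (by linarith)] at h1
  unfold nu
  simp only
  linarith

theorem monoY {g : P → ℝ} (hg : Lip g) (x : ℝ) {y y' : ℝ} (h : y ≤ y') :
    nu g (x, y) ≤ nu g (x, y') := by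
  have h1 := hg.2 (x, y') (x, y)
  simp only [sub_self, abs_zero, zero_add] at h1
  rw [abs_of_nonneg (by linarith)] at h1
  unfold nu
  simp only
  linarith

theorem diag {g : P → ℝ} (hg : Lip g) (x y : ℝ) {d : ℝ} (h : 0 ≤ d) :
    nu g (x, y) - 2 * d ≤ nu g (x - d, y - d) := by
  have h1 := hg.2 (x - d, y - d) (x, y)
  simp only [sub_sub_cancel_left, abs_neg] at h1
  rw [abs_of_nonneg h] at h1
  unfold nu
  simp only
  linarith

theorem zero {g : P → ℝ} (hg : Lip g) : nu g (0, 0) = 0 := by
  unfold nu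
  simp [hg.1]

theorem step {g : P → ℝ} (hg : Lip g) {β : ℝ} (hβ : 0 < β) (hn : ¬ RE g 1) :
    ∃ x0 : ℝ, 0 ≤ x0 ∧ nu g (x0, 0) ≤ 0 ∧ 0 < nu g (x0 + β, 0) := by
  by_contra hc
  push Not at hc
  have h1 : ∀ j : ℕ, nu g (j * β, 0) ≤ 0 := by
    intro j
    induction j with
    | zero => simp [zero hg]
    | succ j ih =>
      have := hc (j * β) (by positivity) ih
      have e : ((j + 1 : ℕ) : ℝ) * β = j * β + β := by push_cast; ring
      rw [e]
      exact this
  apply hn
  intro t ht
  obtain ⟨j, hj⟩ := exists_nat_ge (t / β)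
  have h2 : t ≤ j * β := by rwa [div_le_iff₀ hβ] at hj
  have h3 := monoX hg 0 h2
  have h4 := monoX hg 0 ht
  have h5 := h1 j
  rw [zero hg] at h4
  have h6 : nu g (t, 0) = 0 := by linarith
  unfold nu at h6
  simp only at h6
  linarith

theorem arith {u2 d k0 η D M la : ℝ} (hu : 0 < u2) (hd : 0 < d) (hk : 0 < k0) (hη : 0 < η)
    (hη1 : η ≤ 1 / 2) (hη2 : 40 * u2 * η ≤ d) (hD : D * d = 4 * (u2 + 5 * u2 * k0) + d)
    (hD0 : 0 < D) (hM : 0 < M) (hla : 0 < la) (h1 : (M + D) * la < u2)
    (h : (1 - η) * (D * d - (u2 - (M + D) * la)) ≤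
      10 * D * (u2 - (M + D) * la) * η + 10 * (u2 - M * la) * (1 - η) * (k0 / 2)) : False := by
  have a0 : 0 < (M + D) * la := by positivity
  have a00 : 0 < M * la := by positivity
  have a01 : 0 < D * la := by positivity
  have aDd : 0 < D * d := by positivity
  set w := u2 - (M + D) * la with hw
  have w0 : 0 < w := by linarith
  have w1 : w ≤ u2 := by linarith
  set v := u2 - M * la with hv
  have v0 : 0 < v := by nlinarith
  have v1 : v ≤ u2 := by linarith
  have b1 : D * d / 2 ≤ (1 - η) * (D * d) := by nlinarith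
  have b2 : (1 - η) * w ≤ u2 := by nlinarith
  have b3 : 10 * D * w * η ≤ D * d / 4 := by
    have c1 : w * η ≤ u2 * η := by nlinarith
    have c2 : w * η ≤ d / 40 := by linarith
    have c3 : D * (w * η) ≤ D * (d / 40) := by exact mul_le_mul_of_nonneg_left c2 hD0.le
    nlinarith
  have b4 : 10 * v * (1 - η) * (k0 / 2) ≤ 5 * u2 * k0 := by
    have c1 : v * (1 - η) ≤ u2 := by nlinarith
    have c2 : v * (1 - η) * k0 ≤ u2 * k0 := mul_le_mul_of_nonneg_right c1 hk.le
    nlinarith
  nlinarith

end PersA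

open PersA

theorem pers_row : PersStmt := by
  intro I g h b hg hal hb hp hre hk0
  by_contra hn
  obtain ⟨x0, hx0, hx1, hx2⟩ := step hg (β := b / 4) (by linarith) hn
  set u2 := x0 + b / 4 with hu2
  have hu : 0 < u2 := by linarith
  set d := nu g (u2, 0) / 4 with hd
  have hd0 : 0 < d := by linarith
  have hκ : 2 * d ≤ nu g (u2 - d, 0 - d) := by
    have := diag hg u2 0 hd0.le
    linarith
  set k0 := nu h (1, 1) with hk0e
  set M := k0 + 1 with hM
  have hM0 : 0 < M := by linarith
  set η := min (1 / 2) (d / (40 * u2)) with hη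
  have hη0 : 0 < η := lt_min (by norm_num) (by positivity)
  have hη1 : η ≤ 1 / 2 := min_le_left _ _
  have hη2 : 40 * u2 * η ≤ d := by
    have : η ≤ d / (40 * u2) := min_le_right _ _
    rw [le_div_iff₀ (by positivity)] at this
    linarith
  set D := 4 * (u2 + 5 * u2 * k0) / d + 1 with hD
  have hD0 : 0 < D := by positivity
  have hDd : D * d = 4 * (u2 + 5 * u2 * k0) + d := by
    rw [hD]; field_simp
  obtain ⟨la, hla, hla1, hs⟩ := hal {((1 : ℝ), (1 : ℝ)), (M, 0), (M + D, 0)} (η * k0)
    (min (u2 / (M + D)) (min (d / k0) (b / k0))) (by positivity)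
    (lt_min (by positivity) (lt_min (by positivity) (by positivity)))
  have l1 : (M + D) * la < u2 := by
    have := lt_of_lt_of_le hla1 (min_le_left _ _)
    rw [lt_div_iff₀ (by positivity)] at this
    linarith
  have l2 : la * k0 < d := by
    have := lt_of_lt_of_le hla1 ((min_le_right _ _).trans (min_le_left _ _))
    rwa [lt_div_iff₀ hk0] at this
  have l3 : la * k0 < b := by
    have := lt_of_lt_of_le hla1 ((min_le_right _ _).trans (min_le_right _ _))
    rwa [lt_div_iff₀ hk0] at this
  have s1 := hs (1, 1) (by simp)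
  have s2 := hs (M, 0) (by simp)
  have s3 := hs (M + D, 0) (by simp)
  rw [hre M hM0.le] at s2
  rw [hre (M + D) (by linarith)] at s3
  unfold T at s1 s2 s3
  simp only [mul_one, mul_zero, one_mul] at s1 s2 s3
  have hlk : 0 < la * k0 := by positivity
  have hlkη : 0 < η * (la * k0) := by positivity
  have hlk2 : η * (la * k0) ≤ la * k0 / 2 := by nlinarith
  have t1 : la * k0 / 2 < nu g (la, la) := by
    have := (abs_lt.1 s1).2
    rw [sub_lt_iff_lt_add, div_lt_iff₀ hla] at this
    have e : h (1, 1) = 2 - 2 * k0 := by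
      rw [hk0e]; unfold nu; simp only; ring
    rw [e] at this
    unfold nu
    simp only
    nlinarith
  have t2 : ∀ m : ℝ, |g (la * m, 0) / la - m| < η * k0 →
      nu g (m * la, 0) < η * (la * k0 / 2) := by
    intro m hm
    have := (abs_lt.1 hm).1
    rw [lt_sub_iff_add_lt, lt_div_iff₀ hla] at this
    rw [mul_comm m la]
    unfold nu
    simp only
    nlinarith
  have t3 := t2 M s2
  have t4 := t2 (M + D) s3
  have hMl : 0 < M * la := by positivity
  have hDl : 0 < D * la := by positivity
  have key := hp.1 (M * la + la, la) (u2 - d, 0 - d) ((M + D) * la, 0) ((M + D) * la, 0)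
    (M * la, 0) (x0, -(b / 4)) (η * (la * k0 / 2)) (η * (la * k0 / 2)) (la * k0 / 2)
    (by positivity) le_rfl (by nlinarith) (by nlinarith)
    (by unfold U; simp only; nlinarith) (by unfold U; simp only; nlinarith) rfl le_rfl
    (by unfold U; simp only; ring) (by unfold U; simp only; rw [hu2]; ring)
    (lt_of_lt_of_le t1 (monoX hg la (by linarith))) (by linarith) t4 t4 t3
    (by
      have := monoY hg x0 (y := -(b / 4)) (y' := 0) (by linarith)
      have h0 : 0 < η * (la * k0 / 2) := by positivity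
      linarith)
    (by simp only; nlinarith) (by simp only; linarith)
  unfold U at key
  simp only at key
  apply arith hu hd0 hk0 hη0 hη1 hη2 hDd hD0 hM0 hla l1
  have hpos : 0 < la * (la * k0 / 2) := by positivity
  apply le_of_mul_le_mul_left _ hpos
  nlinarith

end Pool.Agent.MP_151d89_pr.H55
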