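import Pool.Agent.MP_151d89_pr.H55.Spec

/-! The pyramid and the packed diagonal quadrant are excluded. -/

namespace Pool.Agent.MP_151d89_pr.H55

open Filter Topology

namespace PyrDiagA

theorem nu_T (g : P → ℝ) {a : ℝ} (ha : 0 < a) (x y : ℝ) :
    nu g (a * x, a * y) = a * nu (T a g) (x, y) := by
  unfold nu T
  field_simp

end PyrDiagA

theorem pyr_row : PyrStmt := by
  intro I h hF hh
  have hn : ∀ x y : ℝ, nu h (x, y) = (x + y + |x| + |y|) / 2 := fun x y => by
    rw [hh]
    unfold nu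
    ring
  have h0 : nu h (-200, -200) = 0 := by
    rw [hn]
    norm_num
  have h1 := (hF (-200) (-200)).1
  rw [h0] at h1
  have h2 := h1 (-98, 2) (2, -98) (0, 0) (0, 0) (-100, 0) (0, -100) (1 / 100) (1 / 100) 1
    (by norm_num) le_rfl (by norm_num) (by norm_num) (by norm_num [U]) (by norm_num [U]) rfl le_rfl
    (by norm_num [U]) (by norm_num [U]) (by rw [hn]; norm_num) (by rw [hn]; norm_num)
    (by rw [hn]; norm_num) (by rw [hn]; norm_num) (by rw [hn]; norm_num) (by rw [hn]; norm_num)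
    (by norm_num) (by norm_num)
  norm_num [U] at h2

theorem diag_row : DiagStmt := by
  intro I g h b hA hb hP hd
  classical
  set m : ℕ := I 1 1 4 with hm
  have hm0 : (0 : ℝ) ≤ m := Nat.cast_nonneg _
  obtain ⟨a, ha, hab, hs⟩ := hA
    (((Finset.range (m + 1)).image fun i : ℕ => (((4 + i : ℝ), -(4 + i : ℝ)) : P)) ∪
      ((Finset.range (m + 1)).image fun i : ℕ => (((8 + i : ℝ), -(i : ℝ)) : P)))
    (1 / 2) (b / (m + 7)) (by norm_num) (by positivity)
  have hab' : a * (m + 7) < b := by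
    rwa [lt_div_iff₀ (by positivity)] at hab
  refine hP.2 1 1 4 (4 * a, -(4 * a)) a (2 * a) one_pos one_pos (by norm_num) ha (by linarith)
    (by linarith) (by simp only; linarith) (by simp only; rw [← hm]; nlinarith) ?_
  intro i hi
  rw [← hm] at hi
  have hi0 : (0 : ℝ) ≤ i := Nat.cast_nonneg _
  have e1 := hs (4 + i, -(4 + i)) (Finset.mem_union_left _
    (Finset.mem_image.2 ⟨i, Finset.mem_range.2 (by omega), rfl⟩))
  have e2 := hs (8 + i, -(i : ℝ)) (Finset.mem_union_right _
    (Finset.mem_image.2 ⟨i, Finset.mem_range.2 (by omega), rfl⟩))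
  have d1 := hd (4 + i) (4 + i) (by linarith) (by linarith)
  have d2 := hd (8 + i) i (by linarith) hi0
  have t1 := PyrDiagA.nu_T g ha (4 + i) (-(4 + i))
  have t2 := PyrDiagA.nu_T g ha (8 + i) (-(i : ℝ))
  rw [abs_lt] at e1 e2
  have u1 : nu (T a g) (4 + i, -(4 + i)) < 1 := by
    unfold nu at d1 ⊢
    simp only at d1 ⊢
    linarith [e1.1]
  have u2 : 2 < nu (T a g) (8 + i, -(i : ℝ)) := by
    unfold nu at d2 ⊢
    simp only at d2 ⊢
    linarith [e2.2]
  constructor
  · have : ((4 * a + i * (2 * a - a) * 1, -(4 * a) - i * (2 * a - a) * 1) : P) =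
        (a * (4 + i), a * -(4 + i)) := by
      refine Prod.ext ?_ ?_ <;> simp only <;> ring
    simp only
    rw [this, t1]
    nlinarith
  · have : ((4 * a + i * (2 * a - a) * 1 + 4 * (2 * a - a),
        -(4 * a) - i * (2 * a - a) * 1 + 4 * (2 * a - a)) : P) = (a * (8 + i), a * -(i : ℝ)) := by
      refine Prod.ext ?_ ?_ <;> simp only <;> ring
    simp only
    rw [this, t2]
    nlinarith

end Pool.Agent.MP_151d89_pr.H55
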