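import Pool.Agent.MP_151d89_pr.H55.Spec

/-! Row END of the large scale block: from the limit profiles to an ascending half axis. -/

namespace Pool.Agent.MP_151d89_pr.H55

open Filter Topology

namespace RowEndA

theorem ultra_of_freq {p : ℕ → Prop} (h : ∃ᶠ n in atTop, p n) :
    ∃ 𝒱 : Ultrafilter ℕ, (𝒱 : Filter ℕ) ≤ atTop ∧ ∀ᶠ n in (𝒱 : Filter ℕ), p n := by
  have hne : (atTop ⊓ 𝓟 {n | p n} : Filter ℕ).NeBot := frequently_iff_neBot.1 h
  obtain ⟨𝒱, h𝒱⟩ := Ultrafilter.exists_le (atTop ⊓ 𝓟 {n | p n} : Filter ℕ)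
  exact ⟨𝒱, h𝒱.trans inf_le_left, le_principal_iff.1 (h𝒱.trans inf_le_right)⟩

theorem le_of_ev {𝒱 : Ultrafilter ℕ} (h𝒱 : (𝒱 : Filter ℕ) ≤ atTop) {u : ℕ → ℝ} {a c : ℝ}
    (ht : Tendsto (fun n : ℕ => u n / n) 𝒱 (𝓝 a)) (he : ∀ᶠ n : ℕ in (𝒱 : Filter ℕ), u n ≤ c * n) :
    a ≤ c := by
  refine le_of_tendsto ht ?_
  filter_upwards [he, h𝒱 (eventually_ge_atTop 1)] with n h1 h2
  have hn : (0 : ℝ) < n := by exact_mod_cast (show 0 < n from h2)
  rwa [div_le_iff₀ hn]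

theorem ge_of_ev {𝒱 : Ultrafilter ℕ} (h𝒱 : (𝒱 : Filter ℕ) ≤ atTop) {u : ℕ → ℝ} {a c : ℝ}
    (ht : Tendsto (fun n : ℕ => u n / n) 𝒱 (𝓝 a)) (he : ∀ᶠ n : ℕ in (𝒱 : Filter ℕ), c * n ≤ u n) :
    c ≤ a := by
  refine ge_of_tendsto ht ?_
  filter_upwards [he, h𝒱 (eventually_ge_atTop 1)] with n h1 h2
  have hn : (0 : ℝ) < n := by exact_mod_cast (show 0 < n from h2)
  rwa [le_div_iff₀ hn]

/-- the first exit below slope `1 - η` after a time of slope almost one -/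
theorem first_exit (w : ℕ → ℝ) (hw : ∀ m n : ℕ, m ≤ n → w n - (n - m) ≤ w m)
    (hw1 : ∀ n, w n - 1 ≤ w (n + 1)) {η δ : ℝ} (hη : η ≤ 1) (hδ : 0 < δ)
    (hf : ∃ᶠ n : ℕ in atTop, w n < (1 - η) * n) (n0 : ℕ) (h0 : (1 - δ) * n0 ≤ w n0) :
    ∃ N : ℕ, n0 ≤ N ∧ w N < (1 - η) * N ∧ ∀ m ≤ N, -(δ * N + 1) ≤ w m := by
  classical
  have hex : ∃ N : ℕ, n0 ≤ N ∧ w N < (1 - η) * N := by
    obtain ⟨N, h1, h2⟩ := frequently_atTop.1 hf n0
    exact ⟨N, h1, h2⟩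
  refine ⟨Nat.find hex, (Nat.find_spec hex).1, (Nat.find_spec hex).2, fun m hm => ?_⟩
  have hN : (n0 : ℝ) ≤ (Nat.find hex : ℕ) := by exact_mod_cast (Nat.find_spec hex).1
  have hN0 : (0 : ℝ) ≤ (Nat.find hex : ℕ) := Nat.cast_nonneg _
  rcases le_or_gt m n0 with h | h
  · have h1 := hw m n0 h
    have h2 : (0 : ℝ) ≤ m := Nat.cast_nonneg _
    have h3 := mul_le_mul_of_nonneg_left hN hδ.le
    nlinarith
  · obtain ⟨j, rfl⟩ : ∃ j, m = j + 1 := ⟨m - 1, by omega⟩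
    have h1 : ¬ (n0 ≤ j ∧ w j < (1 - η) * j) := Nat.find_min hex (by omega)
    have h2 : (1 - η) * j ≤ w j := by
      by_contra hc
      exact h1 ⟨by omega, not_le.1 hc⟩
    have h3 : (0 : ℝ) ≤ (1 - η) * j := mul_nonneg (by linarith) (Nat.cast_nonneg _)
    have h4 := hw1 j
    have h5 := mul_nonneg hδ.le hN0
    linarith

theorem core (w v : ℕ → ℝ) (hw : ∀ m n : ℕ, m ≤ n → w n - (n - m) ≤ w m)
    (hw1 : ∀ n, w n - 1 ≤ w (n + 1))
    (ha : ∀ 𝒱 : Ultrafilter ℕ, (𝒱 : Filter ℕ) ≤ atTop →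
      Tendsto (fun n : ℕ => w n / n) 𝒱 (𝓝 1) ∨ Tendsto (fun n : ℕ => v n / n) 𝒱 (𝓝 1))
    (hb : ∀ 𝒱 : Ultrafilter ℕ, (𝒱 : Filter ℕ) ≤ atTop →
      (∀ ε : ℝ, 0 < ε → ∀ᶠ n : ℕ in (𝒱 : Filter ℕ), ∀ m ≤ n, -(ε * n) ≤ w m) →
        Tendsto (fun n : ℕ => w n / n) 𝒱 (𝓝 1)) :
    (∀ ε : ℝ, 0 < ε → ∀ᶠ n : ℕ in atTop, (1 - ε) * n ≤ w n) ∨
      (∀ ε : ℝ, 0 < ε → ∀ᶠ n : ℕ in atTop, (1 - ε) * n ≤ v n) := by
  by_contra hc
  rw [not_or] at hc
  obtain ⟨hc1, hc2⟩ := hc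
  have key : ∀ u : ℕ → ℝ, ¬ (∀ ε : ℝ, 0 < ε → ∀ᶠ n : ℕ in atTop, (1 - ε) * n ≤ u n) →
      ∃ η : ℝ, 0 < η ∧ η ≤ 1 ∧ ∃ᶠ n : ℕ in atTop, u n < (1 - η) * n := by
    intro u hu
    by_contra hcon
    refine hu fun ε hε => ?_
    have h1 : ¬ ∃ᶠ n : ℕ in atTop, u n < (1 - min ε 1) * n := fun h =>
      hcon ⟨min ε 1, lt_min hε one_pos, min_le_right _ _, h⟩
    rw [not_frequently] at h1
    filter_upwards [h1] with n hn
    have h2 : (1 - ε) * n ≤ (1 - min ε 1) * n :=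
      mul_le_mul_of_nonneg_right (by linarith [min_le_left ε 1]) (Nat.cast_nonneg _)
    exact h2.trans (not_lt.1 hn)
  obtain ⟨η, hη0, hη1, hfw⟩ := key w hc1
  obtain ⟨η', hη0', -, hfv⟩ := key v hc2
  obtain ⟨𝒱, h𝒱, hv⟩ := ultra_of_freq hfv
  have htw : Tendsto (fun n : ℕ => w n / n) 𝒱 (𝓝 1) := by
    refine (ha 𝒱 h𝒱).resolve_right fun ht => ?_
    have := le_of_ev h𝒱 ht (hv.mono fun n hn => hn.le)
    linarith
  have hN : ∀ k : ℕ, ∃ N : ℕ, k + 1 ≤ N ∧ w N < (1 - η) * N ∧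
      ∀ m ≤ N, -(1 / ((k : ℝ) + 1) * N + 1) ≤ w m := by
    intro k
    have hδ : (0 : ℝ) < 1 / ((k : ℝ) + 1) := by positivity
    have h1 : ∀ᶠ n : ℕ in (𝒱 : Filter ℕ), 1 - 1 / ((k : ℝ) + 1) < w n / n :=
      htw.eventually (lt_mem_nhds (by linarith))
    obtain ⟨n0, h2, h3⟩ := (h1.and (h𝒱 (eventually_ge_atTop (k + 1)))).exists
    have h3' : k + 1 ≤ n0 := h3
    have hn : (0 : ℝ) < n0 := by exact_mod_cast (show 0 < n0 by omega)
    rw [lt_div_iff₀ hn] at h2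
    obtain ⟨N, h4, h5, h6⟩ := first_exit w hw hw1 hη1 hδ hfw n0 h2.le
    exact ⟨N, by omega, h5, h6⟩
  choose N hN1 hN2 hN3 using hN
  have hNt : Tendsto N atTop atTop :=
    tendsto_atTop_mono (fun k => (Nat.le_succ k).trans (hN1 k)) tendsto_id
  have hle : ((𝒱.map N : Ultrafilter ℕ) : Filter ℕ) ≤ atTop := by
    rw [Ultrafilter.coe_map]
    exact (map_mono h𝒱).trans hNt
  have ht := hb (𝒱.map N) hle fun ε hε => by
    rw [Ultrafilter.coe_map, eventually_map]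
    obtain ⟨k0, hk0⟩ := exists_nat_gt (2 / ε)
    filter_upwards [h𝒱 (eventually_ge_atTop k0)] with k hk m hm
    have hk' : (k0 : ℝ) ≤ k := by exact_mod_cast (show k0 ≤ k from hk)
    have h1 := hN3 k m hm
    have h2 : (k : ℝ) + 1 ≤ N k := by exact_mod_cast hN1 k
    have hk1 : (0 : ℝ) < (k : ℝ) + 1 := by positivity
    have h3 : 1 ≤ 1 / ((k : ℝ) + 1) * N k := by
      rw [one_div, inv_mul_eq_div, le_div_iff₀ hk1]; linarith
    have h4 : 2 * (1 / ((k : ℝ) + 1)) ≤ ε := by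
      rw [div_lt_iff₀ hε] at hk0
      rw [mul_one_div, div_le_iff₀ hk1]; nlinarith
    have h5 := mul_le_mul_of_nonneg_right h4 (Nat.cast_nonneg (α := ℝ) (N k))
    linarith
  have := le_of_ev hle ht (c := 1 - η) (by
    rw [Ultrafilter.coe_map, eventually_map]
    exact Eventually.of_forall fun k => (hN2 k).le)
  linarith

/-- the integer scales as an ultrafilter on the reals -/
theorem cast_le {𝒱 : Ultrafilter ℕ} (h𝒱 : (𝒱 : Filter ℕ) ≤ atTop) :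
    ((𝒱.map (fun n : ℕ => (n : ℝ)) : Ultrafilter ℝ) : Filter ℝ) ≤ atTop := by
  rw [Ultrafilter.coe_map]
  exact (map_mono h𝒱).trans tendsto_natCast_atTop_atTop

theorem lim_nat {l : ℤ × ℤ → ℝ} {𝒱 : Ultrafilter ℕ} {g : P → ℝ}
    (h : Lim l (𝒱.map (fun n : ℕ => (n : ℝ))) g) (z : P) :
    Tendsto (fun n : ℕ => M l n z) 𝒱 (𝓝 (g z)) := by
  have := h.2 z
  rwa [Ultrafilter.coe_map, tendsto_map'_iff] at this

theorem ME (l : ℤ × ℤ → ℝ) (n : ℕ) : M l n (1, 0) = l (n, 0) / n := by simp [M]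
theorem MW (l : ℤ × ℤ → ℝ) (n : ℕ) : M l n (-1, 0) = l (-n, 0) / n := by
  have : ⌊-(n : ℝ)⌋ = -(n : ℤ) := by rw [Int.floor_neg, Int.ceil_natCast]
  simp [M, this]
theorem MN (l : ℤ × ℤ → ℝ) (n : ℕ) : M l n (0, 1) = l (0, n) / n := by simp [M]
theorem MS (l : ℤ × ℤ → ℝ) (n : ℕ) : M l n (0, -1) = l (0, -n) / n := by
  have : ⌊-(n : ℝ)⌋ = -(n : ℤ) := by rw [Int.floor_neg, Int.ceil_natCast]
  simp [M, this]

theorem floor_neg_mul (n : ℕ) {t : ℝ} (h0 : 0 ≤ t) (h1 : t ≤ 1) :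
    ∃ m : ℕ, m ≤ n ∧ ⌊(n : ℝ) * -t⌋ = -(m : ℤ) := by
  have hn : (0 : ℝ) ≤ n := Nat.cast_nonneg _
  refine ⟨⌈(n : ℝ) * t⌉₊, Nat.ceil_le.2 (by nlinarith), ?_⟩
  rw [mul_neg, Int.floor_neg, Int.natCast_ceil_eq_ceil (mul_nonneg hn h0)]

/-- the saddle functional -/
def Ph (g : P → ℝ) : ℝ := g (1, 0) + g (-1, 0) - g (0, 1) - g (0, -1)

theorem ph_three {g : P → ℝ} (hg : Lip g) (h : Three g) : 2 ≤ Ph g := by
  have a1 := hg.2 (0, 0) (1, 0)
  have a2 := hg.2 (0, 0) (-1, 0)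
  have a3 := hg.2 (0, 1) (0, 0)
  have a4 := hg.2 (0, -1) (0, 0)
  have a0 := hg.1
  norm_num at a1 a2 a3 a4
  have b0 : g 0 = 0 := a0
  unfold Ph
  rcases h with ⟨x, y, z⟩ | ⟨x, y, z⟩ | ⟨x, y, z⟩ | ⟨x, y, z⟩ <;>
    (have x' := x 1 zero_le_one; have y' := y 1 zero_le_one; have z' := z 1 zero_le_one; linarith)

theorem lip_neg {g : P → ℝ} (hg : Lip g) : Lip (neg g) := by
  refine ⟨by simp only [neg, hg.1, neg_zero], fun z w => ?_⟩
  have := hg.2 w z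
  rw [abs_sub_comm w.1, abs_sub_comm w.2] at this
  simp only [neg]; linarith

theorem ph_three' {g : P → ℝ} (hg : Lip g) (h : Three (neg g)) : Ph g ≤ -2 := by
  have := ph_three (lip_neg hg) h
  simp only [Ph, neg] at this ⊢
  linarith

/-- the lattice functional -/
def Phz (l : ℤ × ℤ → ℝ) (n : ℕ) : ℝ := l (n, 0) + l (-n, 0) - l (0, n) - l (0, -n)

theorem tend_ph {l : ℤ × ℤ → ℝ} {𝒱 : Ultrafilter ℕ} {g : P → ℝ}
    (h : Lim l (𝒱.map (fun n : ℕ => (n : ℝ))) g) :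
    Tendsto (fun n : ℕ => Phz l n / n) 𝒱 (𝓝 (Ph g)) := by
  have := (((lim_nat h (1, 0)).add (lim_nat h (-1, 0))).sub (lim_nat h (0, 1))).sub
    (lim_nat h (0, -1))
  refine this.congr fun n => ?_
  rw [ME, MW, MN, MS, Phz]; ring

theorem phz_step {l : ℤ × ℤ → ℝ} (hl : LipZ l) (n : ℕ) : |Phz l (n + 1) - Phz l n| ≤ 4 := by
  have a1 := hl.2 ((n + 1 : ℕ), 0) (n, 0)
  have a2 := hl.2 (n, 0) ((n + 1 : ℕ), 0)
  have a3 := hl.2 (-(n + 1 : ℕ), 0) (-n, 0)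
  have a4 := hl.2 (-n, 0) (-(n + 1 : ℕ), 0)
  have a5 := hl.2 (0, (n + 1 : ℕ)) (0, n)
  have a6 := hl.2 (0, n) (0, (n + 1 : ℕ))
  have a7 := hl.2 (0, -(n + 1 : ℕ)) (0, -n)
  have a8 := hl.2 (0, -n) (0, -(n + 1 : ℕ))
  simp only [Phz]
  push_cast at a1 a2 a3 a4 a5 a6 a7 a8 ⊢
  norm_num at a1 a2 a3 a4 a5 a6 a7 a8
  rw [abs_le]
  simp only [neg_add_rev]
  constructor <;> linarith

theorem sign_ev {u : ℕ → ℝ} (hs : ∀ n, |u (n + 1) - u n| ≤ 4)
    (hb : ∀ᶠ n : ℕ in atTop, (n : ℝ) < |u n|) :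
    (∀ᶠ n : ℕ in atTop, (1 : ℝ) * n ≤ u n) ∨ ∀ᶠ n : ℕ in atTop, u n ≤ (-1 : ℝ) * n := by
  obtain ⟨n0, hn0⟩ := eventually_atTop.1 (hb.and (eventually_ge_atTop 2))
  rcases lt_abs.1 (hn0 n0 le_rfl).1 with h | h
  · refine Or.inl (eventually_atTop.2 ⟨n0, fun n hn => ?_⟩)
    induction n, hn using Nat.le_induction with
    | base => linarith
    | succ n hn ih =>
      have h2 : (2 : ℝ) ≤ n := by exact_mod_cast (hn0 n hn).2
      have h3 := abs_le.1 (hs n)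
      rcases lt_abs.1 (hn0 (n + 1) (by omega)).1 with h4 | h4
      · linarith
      · push_cast at h4; linarith
  · refine Or.inr (eventually_atTop.2 ⟨n0, fun n hn => ?_⟩)
    induction n, hn using Nat.le_induction with
    | base => linarith
    | succ n hn ih =>
      have h2 : (2 : ℝ) ≤ n := by exact_mod_cast (hn0 n hn).2
      have h3 := abs_le.1 (hs n)
      rcases lt_abs.1 (hn0 (n + 1) (by omega)).1 with h4 | h4
      · push_cast at h4; linarith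
      · linarith

theorem ge_zero {𝒱 : Ultrafilter ℕ} (h𝒱 : (𝒱 : Filter ℕ) ≤ atTop) {w u : ℕ → ℝ} {a : ℝ}
    (hw : ∀ ε : ℝ, 0 < ε → ∀ᶠ n : ℕ in (𝒱 : Filter ℕ), ∀ m ≤ n, -(ε * n) ≤ w m)
    (hu : ∀ n, ∃ m ≤ n, u n = w m / n) (ht : Tendsto u 𝒱 (𝓝 a)) : 0 ≤ a := by
  refine le_of_forall_pos_le_add fun ε hε => ?_
  have : -ε ≤ a := by
    refine ge_of_tendsto ht ?_
    filter_upwards [hw ε hε, h𝒱 (eventually_ge_atTop 1)] with n h1 h2
    have hn : (0 : ℝ) < n := by exact_mod_cast (show 0 < n from h2)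
    obtain ⟨m, hm, e⟩ := hu n
    rw [e, le_div_iff₀ hn]
    linarith [h1 m hm]
  linarith

end RowEndA

open RowEndA in
theorem end_row (_hs : LimSeqStmt) (hl : LimStmt) : EndStmt := by
  intro l hZ hF
  have hex : ∀ 𝒱 : Ultrafilter ℕ, (𝒱 : Filter ℕ) ≤ atTop →
      ∃ g, Lim l (𝒱.map (fun n : ℕ => (n : ℝ))) g ∧ Lip g ∧ Fin3 g := fun 𝒱 h𝒱 => by
    obtain ⟨g, hg⟩ := hl.2.1 l _ hZ (cast_le h𝒱)
    exact ⟨g, hg, hl.1 l _ g hZ hg, hF _ g hg⟩
  have hb : ∀ᶠ n : ℕ in atTop, (n : ℝ) < |Phz l n| := by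
    by_contra hc
    rw [not_eventually] at hc
    obtain ⟨𝒱, h𝒱, hv⟩ := ultra_of_freq hc
    obtain ⟨g, hg, hL, h3⟩ := hex 𝒱 h𝒱
    have h1 := le_of_ev h𝒱 (tend_ph hg) (c := 1)
      (hv.mono fun n hn => by linarith [(abs_le.1 (not_lt.1 hn)).2])
    have h2 := ge_of_ev h𝒱 (tend_ph hg) (c := -1)
      (hv.mono fun n hn => by linarith [(abs_le.1 (not_lt.1 hn)).1])
    rcases h3.1 with h | h
    · linarith [ph_three hL h]
    · linarith [ph_three' hL h]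
  rcases sign_ev (phz_step hZ) hb with hp | hp
  · have h3 : ∀ (𝒱 : Ultrafilter ℕ) g, (𝒱 : Filter ℕ) ≤ atTop →
        Lim l (𝒱.map (fun n : ℕ => (n : ℝ))) g → Lip g → Fin3 g → Three g := by
      intro 𝒱 g h𝒱 hg hL hf
      refine hf.1.resolve_right fun h => ?_
      linarith [ge_of_ev h𝒱 (tend_ph hg) (h𝒱 hp), ph_three' hL h]
    have hc := core (fun n => l (-n, 0)) (fun n => l (n, 0)) (fun m n hmn => ?_) (fun n => ?_)
      (fun 𝒱 h𝒱 => ?_) (fun 𝒱 h𝒱 hw => ?_)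
    · rcases hc with hc | hc
      · exact ⟨(-1, 0), by simp, fun ε hε => by simpa using hc ε hε⟩
      · exact ⟨(1, 0), by simp, fun ε hε => by simpa using hc ε hε⟩
    · have a := hZ.2 (-n, 0) (-m, 0)
      have b : (m : ℝ) ≤ n := by exact_mod_cast hmn
      push_cast at a
      rw [abs_of_nonpos (by linarith), sub_self, abs_zero] at a
      linarith
    · have a := hZ.2 (-n, 0) (-(n + 1 : ℕ), 0)
      push_cast at a ⊢
      rw [abs_of_nonneg (by linarith), sub_self, abs_zero] at a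
      linarith
    · obtain ⟨g, hg, hL, hf⟩ := hex 𝒱 h𝒱
      have tE := lim_nat hg (1, 0)
      have tW := lim_nat hg (-1, 0)
      simp only [ME, MW] at tE tW
      have hor : RE g 1 ∨ RW g 1 := by
        rcases h3 𝒱 g h𝒱 hg hL hf with h | h | h | h
        exacts [Or.inl h.1, Or.inr h.1, Or.inl h.1, Or.inl h.1]
      rcases hor with h | h
      · exact Or.inr (by simpa only [h 1 zero_le_one, mul_one] using tE)
      · exact Or.inl (by simpa only [h 1 zero_le_one, mul_one] using tW)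
    · obtain ⟨g, hg, hL, hf⟩ := hex 𝒱 h𝒱
      have tW := lim_nat hg (-1, 0)
      simp only [MW] at tW
      have h := hf.2.1 (h3 𝒱 g h𝒱 hg hL hf) fun t h0 h1 =>
        ge_zero h𝒱 hw (fun n => by
          obtain ⟨m, hm, e⟩ := floor_neg_mul n h0 h1
          exact ⟨m, hm, by simp only [M, e, mul_zero, Int.floor_zero]⟩) (lim_nat hg (-t, 0))
      simpa only [h 1 zero_le_one, mul_one] using tW
  · have h3 : ∀ (𝒱 : Ultrafilter ℕ) g, (𝒱 : Filter ℕ) ≤ atTop →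
        Lim l (𝒱.map (fun n : ℕ => (n : ℝ))) g → Lip g → Fin3 g → Three (neg g) := by
      intro 𝒱 g h𝒱 hg hL hf
      refine hf.1.resolve_left fun h => ?_
      linarith [le_of_ev h𝒱 (tend_ph hg) (h𝒱 hp), ph_three hL h]
    have hc := core (fun n => l (0, -n)) (fun n => l (0, n)) (fun m n hmn => ?_) (fun n => ?_)
      (fun 𝒱 h𝒱 => ?_) (fun 𝒱 h𝒱 hw => ?_)
    · rcases hc with hc | hc
      · exact ⟨(0, -1), by simp, fun ε hε => by simpa using hc ε hε⟩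
      · exact ⟨(0, 1), by simp, fun ε hε => by simpa using hc ε hε⟩
    · have a := hZ.2 (0, -n) (0, -m)
      have b : (m : ℝ) ≤ n := by exact_mod_cast hmn
      push_cast at a
      rw [sub_self, abs_zero, abs_of_nonpos (by linarith)] at a
      linarith
    · have a := hZ.2 (0, -n) (0, -(n + 1 : ℕ))
      push_cast at a ⊢
      rw [sub_self, abs_zero, abs_of_nonneg (by linarith)] at a
      linarith
    · obtain ⟨g, hg, hL, hf⟩ := hex 𝒱 h𝒱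
      have tN := lim_nat hg (0, 1)
      have tS := lim_nat hg (0, -1)
      simp only [MN, MS] at tN tS
      have hor : g (0, 1) = 1 ∨ g (0, -1) = 1 := by
        rcases h3 𝒱 g h𝒱 hg hL hf with h | h | h | h
        · have := h.2.1 1 zero_le_one
          simp only [neg] at this
          exact Or.inl (by linarith)
        · have := h.2.1 1 zero_le_one
          simp only [neg] at this
          exact Or.inl (by linarith)
        · have := h.2.2 1 zero_le_one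
          simp only [neg] at this
          exact Or.inl (by linarith)
        · have := h.2.2 1 zero_le_one
          simp only [neg] at this
          exact Or.inr (by linarith)
      rcases hor with h | h
      · exact Or.inr (by simpa only [h] using tN)
      · exact Or.inl (by simpa only [h] using tS)
    · obtain ⟨g, hg, hL, hf⟩ := hex 𝒱 h𝒱
      have tS := lim_nat hg (0, -1)
      simp only [MS] at tS
      have h := hf.2.2 (h3 𝒱 g h𝒱 hg hL hf) fun t h0 h1 =>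
        ge_zero h𝒱 hw (fun n => by
          obtain ⟨m, hm, e⟩ := floor_neg_mul n h0 h1
          exact ⟨m, hm, by simp only [M, e, mul_zero, Int.floor_zero]⟩) (lim_nat hg (0, -t))
      simpa only [h 1 zero_le_one, mul_one] using tS

end Pool.Agent.MP_151d89_pr.H55
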