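import Pool.Agent.MP_151d89_pr.H55.Kit

/-! Rows G and CLS. -/

namespace Pool.Agent.MP_151d89_pr.H55

namespace RowGA

theorem fourth (hr : RStmt) {I : ℝ → ℝ → ℝ → ℕ} {h : P → ℝ} (hL : Lip h) (hO : Om h h)
    (hE : ¬ RE h 1) {c : ℝ} (hc : 0 < c) (hS : ∀ t : ℝ, 0 ≤ t → nu h (0, -t) ≤ -(c * t))
    (hP : ∀ b : ℝ, ∃ b', b ≤ b' ∧ Pres I (nu h) 0 (-b') 0) : False := by
  obtain ⟨t, ht, h1⟩ := hr I h hL hO hE hP c 1 hc one_pos
  have h2 := hL.up (z := (0, -(t * 1))) (w := (t * c, -(t * 1))) (by simp; positivity) le_rfl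
  have h3 := hS (t * 1) (by positivity)
  simp only at h2
  nlinarith

end RowGA

theorem g_row (hr : RStmt) : GStmt := by
  intro I h hL hR hG
  by_contra hn
  push Not at hn
  obtain ⟨nE, nN, nW, nS⟩ := hn
  obtain ⟨c1, p1, q1⟩ := (hR.2 (1, 0) (by simp) 1 (by simp)).resolve_left
    (fun H => nE fun t ht => by simpa using H t ht)
  obtain ⟨c2, p2, q2⟩ := (hR.2 (0, 1) (by simp) 1 (by simp)).resolve_left
    (fun H => nN fun t ht => by simpa using H t ht)
  obtain ⟨c3, p3, q3⟩ := (hR.2 (-1, 0) (by simp) (-1) (by simp)).resolve_left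
    (fun H => nW fun t ht => by simpa using H t ht)
  obtain ⟨c4, p4, q4⟩ := (hR.2 (0, -1) (by simp) (-1) (by simp)).resolve_left
    (fun H => nS fun t ht => by simpa using H t ht)
  have e1 : ∀ t : ℝ, 0 ≤ t → c1 / 2 * t ≤ nu h (t, 0) := fun t ht => by
    have := q1 t ht; simp at this; unfold nu; simp only; nlinarith
  have e2 : ∀ t : ℝ, 0 ≤ t → c2 / 2 * t ≤ nu h (0, t) := fun t ht => by
    have := q2 t ht; simp at this; unfold nu; simp only; nlinarith
  have e3 : ∀ t : ℝ, 0 ≤ t → nu h (-t, 0) ≤ -(c3 / 2 * t) := fun t ht => by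
    have := q3 t ht; simp at this; unfold nu; simp only; nlinarith
  have e4 : ∀ t : ℝ, 0 ≤ t → nu h (0, -t) ≤ -(c4 / 2 * t) := fun t ht => by
    have := q4 t ht; simp at this; unfold nu; simp only; nlinarith
  have key : ∀ b : ℝ, (∃ b', b ≤ b' ∧ Pres I (nu h) 0 (-b') 0) ∨
      (∃ a', b ≤ a' ∧ Pres I (nu h) (-a') 0 0) := by
    intro b
    set m := min 1 (min (c1 / 2) (c2 / 2)) with hm
    have m0 : 0 < m := by positivity
    have m1 : m ≤ 1 := min_le_left _ _
    have m2 : m ≤ c1 / 2 := (min_le_right _ _).trans (min_le_left _ _)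
    have m3 : m ≤ c2 / 2 := (min_le_right _ _).trans (min_le_right _ _)
    have hLp : 0 < (|b| + 1) / m := by positivity
    obtain ⟨⟨x, y⟩, z1, z2, z3, z4⟩ := hG _ hLp
    have hb : b ≤ m * ((|b| + 1) / m) := by
      rw [mul_div_cancel₀ _ m0.ne']; linarith [le_abs_self b]
    set L := (|b| + 1) / m
    simp only at z1 z3 z4
    rcases lt_trichotomy x 0 with hx | hx | hx <;> rcases lt_trichotomy y 0 with hy | hy | hy
    · exfalso
      have := hL.mono (z := (x, y)) (w := (x, 0)) le_rfl hy.le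
      have h3 := e3 (-x) (by linarith); rw [neg_neg] at h3; nlinarith
    · exfalso
      subst hy
      have h3 := e3 (-x) (by linarith); rw [neg_neg] at h3; nlinarith
    · right
      refine ⟨-x, ?_, by rw [neg_neg]; exact z4 hx hy⟩
      have h1 := hL.up (z := (x, y)) (w := (0, y)) hx.le le_rfl
      have h2 := e2 y hy.le
      simp only at h1
      rw [abs_of_neg hx, abs_of_pos hy] at z1
      rcases le_total (-x) y with h4 | h4
      · rw [max_eq_right h4] at z1; nlinarith
      · rw [max_eq_left h4] at z1; nlinarith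
    · exfalso
      subst hx
      have h3 := e4 (-y) (by linarith); rw [neg_neg] at h3; nlinarith
    · exfalso
      subst hx; subst hy; simp at z1; linarith
    · exfalso
      subst hx
      have h3 := e2 y hy.le; nlinarith
    · left
      refine ⟨-y, ?_, by rw [neg_neg]; exact z3 hx hy⟩
      have h1 := hL.up (z := (x, y)) (w := (x, 0)) le_rfl hy.le
      have h2 := e1 x hx.le
      simp only at h1
      rw [abs_of_pos hx, abs_of_neg hy] at z1
      rcases le_total x (-y) with h4 | h4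
      · rw [max_eq_right h4] at z1; nlinarith
      · rw [max_eq_left h4] at z1; nlinarith
    · exfalso
      subst hy
      have h3 := e1 x hx.le; nlinarith
    · exfalso
      have := hL.mono (z := (x, 0)) (w := (x, y)) le_rfl hy.le
      have h3 := e1 x hx.le; nlinarith
  by_cases hc : ∀ b : ℝ, ∃ b', b ≤ b' ∧ Pres I (nu h) 0 (-b') 0
  · exact RowGA.fourth hr hL hR.1 nE (half_pos p4) e4 hc
  · push Not at hc
    obtain ⟨b0, hb0⟩ := hc
    refine RowGA.fourth hr (I := fun a b r => I b a r) (lip_swp hL) (om_swp hR.1)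
      (fun H => nN H) (half_pos p3) (fun t ht => by rw [nu_swp]; exact e3 t ht) fun b => ?_
    rcases key (max b b0) with ⟨b', h1, h2⟩ | ⟨a', h1, h2⟩
    · exact absurd h2 (hb0 b' ((le_max_right _ _).trans h1))
    · exact ⟨a', (le_max_left _ _).trans h1, pres_swp h2⟩

namespace RowGA

theorem east (hx : XStmt) {I : ℝ → ℝ → ℝ → ℕ} {A : (P → ℝ) → Prop} (hA : Cl I A) {h : P → ℝ}
    (ha : A h) (hO : Om h h) (hN : RN h (-1)) (hS : RS h (-1)) :
    (∀ x y : ℝ, 0 ≤ x → h (x, y) = x - |y|) ∨ (∀ x y : ℝ, 0 ≤ x → h (x, y) = -x - |y|) := by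
  obtain ⟨hL, hAd, -, a2, -⟩ := hA h ha
  have hax : ∀ y : ℝ, h (0, y) = -|y| := fun y => by
    rcases le_total 0 y with hy | hy
    · rw [hN y hy, abs_of_nonneg hy]; ring
    · have := hS (-y) (by linarith); rw [neg_neg] at this; rw [this, abs_of_nonpos hy]; ring
  by_cases hE : RE h 1
  · left
    intro x y hx0
    have h1 := hL.2 (x, 0) (x, y)
    have h2 := hL.2 (x, y) (0, y)
    rw [hE x hx0] at h1
    rw [hax y] at h2
    simp only [sub_self, abs_zero, zero_sub, abs_neg, sub_zero, abs_of_nonneg hx0] at h1 h2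
    linarith
  · right
    intro x y hx0
    rcases le_total 0 y with hy | hy
    · obtain ⟨-, -, -, -, a3⟩ := hA _ a2
      obtain ⟨-, -, -, a4, -⟩ := hA _ a3
      obtain ⟨hL', hAd', -⟩ := hA _ a4
      have := hx I _ hL' (om_swp (om_rfx (om_swp hO))) hAd'
        (fun t ht => by simpa [swp, rfx] using hS t ht)
        (fun t ht => by simpa [swp, rfx] using hN t ht)
        (fun H => hE fun t ht => by simpa [swp, rfx] using H t ht) x y hx0 hy
      simp only [swp, rfx, neg_neg] at this
      rw [this, abs_of_nonneg hy]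
    · have := hx I h hL hO hAd hN hS hE x (-y) hx0 (by linarith)
      rw [neg_neg] at this
      rw [this, abs_of_nonpos hy]

end RowGA

theorem cls_row (hx : XStmt) (hp : PyrStmt) : ClsStmt := by
  intro I A h hA ha hO hN hS
  obtain ⟨-, hAd, -, -, a3⟩ := hA h ha
  have h1 := RowGA.east hx hA ha hO hN hS
  have h2 := RowGA.east hx hA a3 (om_rfx hO) (fun t ht => by simpa [rfx] using hN t ht)
    (fun t ht => by simpa [rfx] using hS t ht)
  simp only [rfx] at h2
  rcases h1 with h1 | h1 <;> rcases h2 with h2 | h2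
  · left; funext ⟨x, y⟩; simp only [S0]
    rcases le_total 0 x with hx0 | hx0
    · rw [h1 x y hx0, abs_of_nonneg hx0]
    · have := h2 (-x) y (by linarith); rw [neg_neg] at this; rw [this, abs_of_nonpos hx0]
  · right; left; funext ⟨x, y⟩; simp only [Rg]
    rcases le_total 0 x with hx0 | hx0
    · rw [h1 x y hx0]
    · have := h2 (-x) y (by linarith); rw [neg_neg] at this; rw [this]
  · right; right; funext ⟨x, y⟩; simp only [Rg, rfx]
    rcases le_total 0 x with hx0 | hx0
    · rw [h1 x y hx0]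
    · have := h2 (-x) y (by linarith); rw [neg_neg] at this; rw [this]
  · exfalso
    refine hp I h hAd.1 ?_
    funext ⟨x, y⟩; simp only
    rcases le_total 0 x with hx0 | hx0
    · rw [h1 x y hx0, abs_of_nonneg hx0]
    · have := h2 (-x) y (by linarith); rw [neg_neg] at this; rw [this, abs_of_nonpos hx0, neg_neg]

end Pool.Agent.MP_151d89_pr.H55
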