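import Pool.Agent.MP_151d89_pr.H55.Spec

/-! Row R: above a pressure free quadrant every oblique ray meets a positive level. -/

namespace Pool.Agent.MP_151d89_pr.H55

open Filter Topology

namespace RowRA

theorem cont (h : P → ℝ) (hl : Lip h) : Continuous h := by
  have : LipschitzWith 2 h := by
    refine LipschitzWith.of_dist_le_mul fun z w => ?_
    have h1 := hl.2 z w
    have h2 := hl.2 w z
    have h3 : |z.1 - w.1| ≤ dist z w := by
      rw [← Real.dist_eq, Prod.dist_eq]; exact le_max_left _ _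
    have h4 : |z.2 - w.2| ≤ dist z w := by
      rw [← Real.dist_eq, Prod.dist_eq]; exact le_max_right _ _
    rw [abs_sub_comm w.1, abs_sub_comm w.2] at h2
    rw [Real.dist_eq, abs_le]
    push_cast
    constructor <;> linarith
  exact this.continuous

theorem mono1 (h : P → ℝ) (hl : Lip h) (x x' y : ℝ) (hx : x ≤ x') :
    nu h (x, y) ≤ nu h (x', y) := by
  have h1 := hl.2 (x', y) (x, y)
  simp only [sub_self, abs_zero, add_zero] at h1
  rw [abs_of_nonneg (by linarith)] at h1
  simp only [nu]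
  linarith

/-- the rays -/
def dr (m t : ℝ) : P := (t * m, -(t * (1 - m)))

theorem U_dr (m t : ℝ) : U (dr m t) = t := by
  simp only [U, dr]; ring

theorem far (h : P → ℝ) (ho : Om h h) (m t0 : ℝ) (ht0 : 0 < t0) (hp : 0 < nu h (dr m t0))
    (k D : ℝ) : ∃ t, D < t ∧ k < nu h (dr m t) := by
  set δ := nu h (dr m t0) with hδ
  obtain ⟨a, ha, hDa, hz⟩ := ho {dr m t0} δ (max (D / t0) (2 * k / δ)) hp
  have hz1 := hz (dr m t0) (Finset.mem_singleton_self _)
  have h1 : D / t0 < a := lt_of_le_of_lt (le_max_left _ _) hDa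
  have h2 : 2 * k / δ < a := lt_of_le_of_lt (le_max_right _ _) hDa
  rw [div_lt_iff₀ ht0] at h1
  rw [div_lt_iff₀ hp] at h2
  refine ⟨a * t0, h1, ?_⟩
  have e : dr m (a * t0) = (a * (dr m t0).1, a * (dr m t0).2) := by
    simp only [dr]; congr 1 <;> ring
  rw [e]
  have h3 := (abs_lt.1 hz1).2
  simp only [T] at h3
  have h4 : h (a * (dr m t0).1, a * (dr m t0).2) < a * (h (dr m t0) + δ) := by
    have : h (a * (dr m t0).1, a * (dr m t0).2) / a < h (dr m t0) + δ := by linarith
    rw [div_lt_iff₀ ha] at this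
    linarith
  have h5 : 2 * δ = (dr m t0).1 + (dr m t0).2 - h (dr m t0) := by
    rw [hδ]; simp only [nu]; ring
  have h6 : a * (2 * δ) = a * ((dr m t0).1 + (dr m t0).2 - h (dr m t0)) := by rw [h5]
  simp only [nu]
  nlinarith

/-- the arithmetic of the chord inequality -/
theorem arith (k1 k2 u1 u t Um m ms W : ℝ) (hk2 : 0 < k2) (hk1 : 0 < k1) (hk12 : k1 ≤ k2 / 2)
    (hu1 : 0 < u1) (hu : u1 < u) (huU : u ≤ Um) (ht : Um < t) (hm0 : 0 < m) (hm : m < 1)
    (hms : ms < m) (hUm : Um * (m - ms) ≤ u1) (hUk : Um * k1 ≤ k2 * u1)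
    (hW : W = 2 * (12 * u1 + 10 * k2) + 1)
    (H : (k2 - k1) * ((t - u1) * (-(u * (1 - ms)) + W) - (t - u) * 0 -
        (u - u1) * (-(t * (1 - m)))) ≤
      (t - u1) * (k2 / 2 - k1) * (-(u * (1 - ms)) + W - -(u * (1 - ms))) +
        10 * (u - u1) * (t - u) * (k1 - 0) + 10 * (t - u1) * (k2 - k1) * (k2 - 0)) : False := by
  set D := t - u1 with hD
  have hD0 : 0 < D := by linarith
  have a1 : (u - u1) * (D * (1 - m)) ≤ (u - u1) * (t * (1 - m)) := by
    apply mul_le_mul_of_nonneg_left _ (by linarith)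
    apply mul_le_mul_of_nonneg_right (by linarith) (by linarith)
  have a2 : u * (m - ms) ≤ u1 :=
    le_trans (mul_le_mul_of_nonneg_right huU (by linarith)) hUm
  have a3 : u1 * (1 - m) ≤ u1 := by nlinarith
  have a4 : D * (W - 2 * u1) ≤ D * (-(u * (1 - ms)) + W) + (u - u1) * (D * (1 - m)) := by
    have : D * (W - 2 * u1) ≤ D * (-(u * (1 - ms)) + W + (u - u1) * (1 - m)) := by
      apply mul_le_mul_of_nonneg_left _ hD0.le
      nlinarith
    nlinarith
  have a5 : (k2 - k1) * (D * (W - 2 * u1)) ≤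
      (k2 - k1) * (D * (-(u * (1 - ms)) + W) - (t - u) * 0 - (u - u1) * (-(t * (1 - m)))) := by
    apply mul_le_mul_of_nonneg_left _ (by linarith)
    linarith
  have a6 : (u - u1) * k1 ≤ k2 * u1 :=
    le_trans (mul_le_mul_of_nonneg_right (by linarith) hk1.le) hUk
  have a7 : (u - u1) * k1 * (t - u) ≤ k2 * u1 * D :=
    mul_le_mul a6 (by linarith) (by linarith) (by positivity)
  have a8 : D * ((k2 - k1) * (W - 2 * u1)) ≤
      D * ((k2 / 2 - k1) * W + 10 * (k2 * u1) + 10 * ((k2 - k1) * k2)) := by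
    nlinarith
  have a9 := le_of_mul_le_mul_left a8 hD0
  have b1 : 0 < k1 * u1 := mul_pos hk1 hu1
  have b2 : 0 < k1 * k2 := mul_pos hk1 hk2
  rw [hW] at a9
  nlinarith

end RowRA

open RowRA in
theorem r_row : RStmt := by
  intro I h hl ho hre hp al be hal hbe
  by_contra hcon
  push Not at hcon
  -- a positive level on the east axis
  obtain ⟨x0, hx0, hκ⟩ : ∃ x0 : ℝ, 0 ≤ x0 ∧ 0 < nu h (x0, 0) := by
    by_contra hn
    push Not at hn
    apply hre
    intro t ht
    have h1 := hn t ht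
    have h2 := hl.2 (t, 0) (0, 0)
    rw [hl.1] at h2
    simp only [sub_zero, abs_zero, add_zero, abs_of_nonneg ht] at h2
    simp only [nu] at h1
    linarith
  set n := nu h with hn
  have hn0 : n (0, 0) = 0 := by simp only [hn, nu, hl.1]; norm_num
  -- the last ray with nonpositive levels
  let S : Set ℝ := {m | m ≤ 1 ∧ ∀ t : ℝ, 0 < t → n (dr m t) ≤ 0}
  have hScl : IsClosed S := by
    have : S = {m | m ≤ 1} ∩ ⋂ t : ℝ, ⋂ _ : 0 < t, {m | n (dr m t) ≤ 0} := by
      ext m; simp [S]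
    rw [this]
    refine (isClosed_le continuous_id continuous_const).inter
      (isClosed_iInter fun t => isClosed_iInter fun _ => isClosed_le ?_ continuous_const)
    have hc := cont h hl
    simp only [hn, nu, dr]
    fun_prop
  have hs : 0 < al + be := by linarith
  have hm0 : al / (al + be) ∈ S := by
    refine ⟨by rw [div_le_one hs]; linarith, fun t ht => ?_⟩
    have := hcon (t / (al + be)) (div_pos ht hs)
    have e : dr (al / (al + be)) t = (t / (al + be) * al, -(t / (al + be) * be)) := by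
      simp only [dr]; congr 1 <;> field_simp
      ring
    rw [e]; exact this
  have hbd : BddAbove S := ⟨1, fun m hm => hm.1⟩
  obtain ⟨ms, hmsS, hmsM⟩ : ∃ ms, ms ∈ S ∧ ∀ m ∈ S, m ≤ ms :=
    ⟨sSup S, hScl.csSup_mem ⟨_, hm0⟩ hbd, fun m hm => le_csSup hbd hm⟩
  have hms0 : 0 < ms := lt_of_lt_of_le (div_pos hal hs) (hmsM _ hm0)
  have hx0' : 0 < x0 := by
    rcases hx0.eq_or_lt with h0 | h0
    · rw [← h0, hn0] at hκ; exact absurd hκ (lt_irrefl _)
    · exact h0
  have hms1 : ms < 1 := by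
    rcases hmsS.1.eq_or_lt with h1 | h1
    · have := hmsS.2 x0 hx0'
      rw [h1] at this
      simp only [dr, mul_one, sub_self, mul_zero, neg_zero] at this
      linarith
    · exact h1
  -- the constants
  set k2 := n (x0, 0) / 2 with hk2
  have hk2p : 0 < k2 := by positivity
  set u1 := x0 + k2 / ms + 1 with hu1
  have hq : 0 < k2 / ms := div_pos hk2p hms0
  have hu1p : 0 < u1 := by linarith
  have hu1m : k2 < u1 * ms := by
    have : u1 * ms = k2 + (x0 + 1) * ms := by rw [hu1]; field_simp; ring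
    have h2 : 0 < (x0 + 1) * ms := by positivity
    linarith
  have hna : k2 < n (u1, 0) := by
    have := mono1 h hl x0 u1 0 (by linarith)
    rw [← hn] at this
    linarith
  set W := 2 * (12 * u1 + 10 * k2) + 1 with hW
  have hWp : 0 < W := by positivity
  set r := W / (k2 / 8) with hr
  have hrp : 0 < r := by positivity
  have hrk : r * (k2 / 4 - k2 / 8) = W := by rw [hr]; field_simp; ring
  set N := I ms (1 - ms) r with hN
  set Um := u1 + 1 + N * (k2 / 8) with hUm
  have hUmp : u1 + 1 ≤ Um := by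
    have : (0 : ℝ) ≤ N * (k2 / 8) := by positivity
    linarith
  have hUm0 : 0 < Um := by linarith
  -- the ray m, the level k1, the time t and the corner
  obtain ⟨m, hm1, hm2, hm3⟩ : ∃ m, ms < m ∧ m < 1 ∧ Um * (m - ms) ≤ u1 := by
    refine ⟨ms + min ((1 - ms) / 2) (u1 / Um), ?_, ?_, ?_⟩
    · have : 0 < min ((1 - ms) / 2) (u1 / Um) := lt_min (by linarith) (div_pos hu1p hUm0)
      linarith
    · have := min_le_left ((1 - ms) / 2) (u1 / Um)
      linarith
    · have := min_le_right ((1 - ms) / 2) (u1 / Um)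
      rw [le_div_iff₀ hUm0] at this
      linarith
  obtain ⟨k1, hk1, hk12, hk1U⟩ : ∃ k1, 0 < k1 ∧ k1 ≤ k2 / 2 ∧ Um * k1 ≤ k2 * u1 := by
    refine ⟨min (k2 / 2) (k2 * u1 / Um), lt_min (by linarith) (by positivity), min_le_left _ _, ?_⟩
    have := min_le_right (k2 / 2) (k2 * u1 / Um)
    rw [le_div_iff₀ hUm0] at this
    linarith
  obtain ⟨t0, ht0, hpos⟩ : ∃ t0, 0 < t0 ∧ 0 < n (dr m t0) := by
    by_contra hn'
    push Not at hn'
    have := hmsM m ⟨hm2.le, hn'⟩
    linarith
  obtain ⟨t, htU, hnt⟩ := far h ho m t0 ht0 hpos k2 Um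
  rw [← hn] at hnt
  obtain ⟨b', hb', hch, hnb⟩ := hp (t + k2 + 1)
  have ht0' : 0 < t := by linarith
  have htm : t * (1 - ms) ≤ t := by nlinarith
  -- the bunch stays close to the ray
  have key : ∀ u, u1 < u → u ≤ Um → k2 / 2 ≤ n (u * ms + W, -(u * (1 - ms)) + W) := by
    intro u hu huU
    by_contra hc
    push Not at hc
    have Ua : U (u1, 0) = u1 := by simp [U]
    have Uc : U (u * ms + W, -(u * (1 - ms)) + W) = u := by simp only [U]; ring
    have H := hch (u1, 0) (dr m t) (u * ms + W, -(u * (1 - ms)) + W) (dr ms u) (dr ms u1)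
      (dr ms t) k1 (k2 / 2) k2 hk1 hk12 (by linarith) (by linarith)
      (by rw [Ua, Uc]; exact hu) (by rw [Uc, U_dr]; linarith) (by rw [Uc, U_dr])
      (by simp only [dr]; linarith) (by rw [Ua, U_dr]) (by rw [U_dr, U_dr]) hna hnt hc
      (lt_of_le_of_lt (hmsS.2 u (by linarith)) hk1) (lt_of_le_of_lt (hmsS.2 u1 hu1p) hk1)
      (lt_of_le_of_lt (hmsS.2 t ht0') hk1) (by simp only [dr]; linarith)
      (by simp only [dr]; linarith)
    rw [Ua, Uc, U_dr] at H
    simp only [dr] at H
    exact arith k1 k2 u1 u t Um m ms W hk2p hk1 hk12 hu1p hu huU htU (by linarith) hm2 hm1 hm3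
      hk1U hW H
  refine hnb ms (1 - ms) r (dr ms (u1 + 1)) (k2 / 8) (k2 / 4) hms0 (by linarith) hrp
    (by linarith) (by linarith) (by rw [hrk]; linarith) ?_ ?_ ?_
  · simp only [dr]; nlinarith
  · rw [← hN]
    simp only [dr]
    have e : -((u1 + 1) * (1 - ms)) - N * (k2 / 4 - k2 / 8) * (1 - ms) = -(Um * (1 - ms)) := by
      rw [hUm]; ring
    rw [e]
    have : Um * (1 - ms) ≤ Um := by nlinarith
    linarith
  · intro i hi
    rw [← hN] at hi
    have hi' : (i : ℝ) ≤ N := by exact_mod_cast hi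
    have hi0 : (0 : ℝ) ≤ i * (k2 / 8) := by positivity
    have hi1 : (i : ℝ) * (k2 / 8) ≤ N * (k2 / 8) := mul_le_mul_of_nonneg_right hi' (by linarith)
    have e1 : (dr ms (u1 + 1)).1 + i * (k2 / 4 - k2 / 8) * ms = (u1 + 1 + i * (k2 / 8)) * ms := by
      simp only [dr]; ring
    have e2 : (dr ms (u1 + 1)).2 - i * (k2 / 4 - k2 / 8) * (1 - ms) =
        -((u1 + 1 + i * (k2 / 8)) * (1 - ms)) := by
      simp only [dr]; ring
    rw [e1, e2, hrk]
    constructor
    · have := hmsS.2 (u1 + 1 + i * (k2 / 8)) (by linarith)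
      simp only [dr] at this
      linarith
    · have := key (u1 + 1 + i * (k2 / 8)) (by linarith) (by linarith)
      linarith

end Pool.Agent.MP_151d89_pr.H55
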