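import Pool.Agent.MP_151d89_pr.H55.Spec

/-! Row X: descending vertical rays and no ascending east ray force a facet. -/

namespace Pool.Agent.MP_151d89_pr.H55

namespace RowXA

variable {h : P → ℝ}

theorem inc1 (hl : Lip h) {x x' : ℝ} (y : ℝ) (hx : x ≤ x') :
    nu h (x, y) ≤ nu h (x', y) ∧ nu h (x', y) ≤ nu h (x, y) + (x' - x) := by
  have h1 := hl.2 (x', y) (x, y)
  have h2 := hl.2 (x, y) (x', y)
  simp only [sub_self, abs_zero, add_zero] at h1 h2
  rw [abs_of_nonneg (sub_nonneg.2 hx)] at h1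
  rw [abs_of_nonpos (sub_nonpos.2 hx)] at h2
  simp only [nu]
  constructor <;> linarith

theorem inc2 (hl : Lip h) (x : ℝ) {y y' : ℝ} (hy : y ≤ y') :
    nu h (x, y) ≤ nu h (x, y') ∧ nu h (x, y') ≤ nu h (x, y) + (y' - y) := by
  have h1 := hl.2 (x, y') (x, y)
  have h2 := hl.2 (x, y) (x, y')
  simp only [sub_self, abs_zero, zero_add] at h1 h2
  rw [abs_of_nonneg (sub_nonneg.2 hy)] at h1
  rw [abs_of_nonpos (sub_nonpos.2 hy)] at h2
  simp only [nu]
  constructor <;> linarith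

theorem south (hs : RS h (-1)) (y : ℝ) (hy : 0 ≤ y) : nu h (0, -y) = 0 := by
  simp only [nu, hs y hy]
  ring

theorem north (hn : RN h (-1)) (y : ℝ) (hy : 0 ≤ y) : nu h (0, y) = y := by
  simp only [nu, hn y hy]
  ring

theorem far (ho : Om h h) {η t : ℝ} (ht : 0 < t) (hc : 0 < nu h (t * η, -(t * 2))) (k b0 : ℝ) :
    ∃ b, b0 ≤ b ∧ k < nu h (η * b, -(2 * b)) := by
  set c := nu h (t * η, -(t * 2)) with hcd
  obtain ⟨a, ha, hd, hz⟩ := ho {(t * η, -(t * 2))} c (max (b0 / t) (2 * k / c)) hc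
  have h1 := hz _ (Finset.mem_singleton_self _)
  have h2 : b0 / t < a := lt_of_le_of_lt (le_max_left _ _) hd
  have h3 : 2 * k / c < a := lt_of_le_of_lt (le_max_right _ _) hd
  rw [div_lt_iff₀ ht] at h2
  rw [div_lt_iff₀ hc] at h3
  refine ⟨a * t, h2.le, ?_⟩
  have h4 := (abs_lt.1 h1).2
  simp only [T] at h4
  have e1 : η * (a * t) = a * (t * η) := by ring
  have e2 : -(2 * (a * t)) = a * -(t * 2) := by ring
  rw [e1, e2]
  have h5 : h (a * (t * η), a * -(t * 2)) < a * (c + h (t * η, -(t * 2))) := by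
    rw [sub_lt_iff_lt_add, div_lt_iff₀ ha] at h4
    linarith
  have h6 : h (t * η, -(t * 2)) = t * η - t * 2 - 2 * c := by
    rw [hcd]
    simp only [nu]
    ring
  rw [h6] at h5
  simp only [nu]
  nlinarith

/-- the last height at which the column stays below the level -/
theorem last (hl : Lip h) (hn : RN h (-1)) {X n1 y0 : ℝ} (hX : 0 ≤ X) (h0 : 0 ≤ n1)
    (hy : nu h (X, y0) ≤ n1) :
    ∃ y1, y0 ≤ y1 ∧ nu h (X, y1) ≤ n1 ∧ ∀ y, y1 < y → n1 < nu h (X, y) := by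
  have hb : BddAbove {y : ℝ | nu h (X, y) ≤ n1} := by
    refine ⟨n1, fun y hy' => ?_⟩
    by_contra hc
    have hc' : n1 < y := not_le.1 hc
    have h1 := (inc1 hl y hX).1
    rw [north hn y (h0.trans hc'.le)] at h1
    have h2 : nu h (X, y) ≤ n1 := hy'
    linarith
  refine ⟨sSup {y : ℝ | nu h (X, y) ≤ n1}, le_csSup hb hy, ?_, fun y hlt => ?_⟩
  · refine le_of_forall_pos_le_add fun ε hε => ?_
    obtain ⟨y, hy1, hy2⟩ := exists_lt_of_lt_csSup (s := {y : ℝ | nu h (X, y) ≤ n1}) ⟨y0, hy⟩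
      (sub_lt_self (sSup {y : ℝ | nu h (X, y) ≤ n1}) hε)
    have h1 := (inc2 hl X (le_csSup hb hy1)).2
    have h2 : nu h (X, y) ≤ n1 := hy1
    linarith
  · by_contra hc
    exact absurd (le_csSup hb (not_lt.1 hc)) (not_le.2 hlt)

end RowXA

open RowXA in
theorem x_row (hr : RStmt) : XStmt := by
  intro I h hl ho ha hn hs he x0 y0 hx hy
  obtain ⟨hf, hz, -⟩ := ha
  have hp : ∀ b : ℝ, ∃ b', b ≤ b' ∧ Pres I (nu h) 0 (-b') 0 := fun b => by
    refine ⟨max b 0, le_max_left _ _, ?_⟩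
    have := hf 0 (-max b 0)
    rwa [south hs _ (le_max_right _ _)] at this
  have hZ := hz (south hs) fun η k b0 hη => by
    obtain ⟨t, ht, hc⟩ := hr I h hl ho he hp η 2 hη two_pos
    exact far ho ht hc k b0
  have h0 := inc1 hl (-y0) hx
  rw [south hs y0 hy] at h0
  suffices hq : x0 ≤ nu h (x0, -y0) by
    have h1 := h0.2
    simp only [nu] at hq h1
    linarith
  by_contra hc
  set n1 := nu h (x0, -y0) with hn1
  have hlt : n1 < x0 := not_le.1 hc
  obtain ⟨d, hd, hx0⟩ : ∃ d : ℝ, 0 < d ∧ x0 = n1 + 2 * d := ⟨(x0 - n1) / 2, by linarith, by ring⟩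
  have h1 := (inc1 hl (-y0) (show n1 + d ≤ x0 by linarith)).1
  obtain ⟨y1, hy1, hy2, hy3⟩ := last hl hn (show 0 ≤ n1 + d by linarith [h0.1]) h0.1 h1
  have h2 := hy3 (y1 + d / 2) (by linarith)
  have h3 := (inc1 hl (y1 + d / 2) (show n1 + d ≤ n1 + d + d / 2 by linarith)).1
  obtain ⟨k2, hk2, hk3⟩ := exists_between
    (show n1 < min (nu h (n1 + d + d / 2, y1 + d / 2)) (n1 + d) from
      lt_min (by linarith) (by linarith))
  obtain ⟨k1, hk0, hk1⟩ := exists_between hk2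
  obtain ⟨hk4, hk5⟩ := lt_min_iff.1 hk3
  obtain ⟨E, hE, hE2⟩ : ∃ E : ℝ, 0 < E ∧ E = x0 + y0 - (n1 + d - y1) := ⟨_, by linarith, rfl⟩
  have hη : 0 < d / (4 * E) := by positivity
  have hηE : E * (d / (4 * E)) = d / 4 := by field_simp
  set η := d / (4 * E)
  obtain ⟨t, ht, hc'⟩ := hr I h hl ho he hp η 2 hη two_pos
  obtain ⟨B, hB, hB2⟩ := far ho ht hc' k2 (x0 + y0 + 1)
  have hB0 : 0 < B := by linarith
  have hηB : 0 < η * B := mul_pos hη hB0
  have key := hZ (n1 + d + d / 2, y1 + d / 2) (η * B, -(2 * B)) (x0, -y0) (n1 + d, y1)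
    (0, -(η * B + 2 * B)) k1 k2 (by linarith [h0.1]) hk1 (by simp only [U]; linarith)
    (by simp only [U]; linarith) (by simp only [U]; ring) (by simp only [U]; ring) hk4 hB2 hk0
    (by linarith) (by rw [south hs _ (by linarith)]; linarith [h0.1]) hk5
  simp only [U] at key
  have hy0 : y0 = E - d - y1 := by linarith
  have h4 : E * (η * B) = d / 4 * B := by rw [← mul_assoc, hηE]
  have h5 : 0 < E * (n1 + d + d / 2) := mul_pos hE (by linarith [h0.1])
  have h6 : 0 ≤ (η * B + 2 * B - (n1 + d - y1) - B) * d :=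
    mul_nonneg (by linarith) hd.le
  have h7 : 0 < d * B := mul_pos hd hB0
  rw [hy0, hx0] at key
  nlinarith

end Pool.Agent.MP_151d89_pr.H55
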