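import Pool.Agent.MP_151d89_pr.H55.Kit

/-! Row THREE. -/

namespace Pool.Agent.MP_151d89_pr.H55

namespace ThreeA

theorem near {g h : P → ℝ} (H : Al g h) (z : P) {ε δ : ℝ} (hε : 0 < ε) (hδ : 0 < δ) :
    ∃ a, 0 < a ∧ a < δ ∧ |nu g (a * z.1, a * z.2) - a * nu h z| ≤ a * ε := by
  obtain ⟨a, h1, h2, h3⟩ := H {z} ε δ hε hδ
  refine ⟨a, h1, h2, ?_⟩
  have := h3 z (Finset.mem_singleton_self z)
  rw [nu_T a h1.ne', ← mul_sub, abs_mul, abs_of_pos h1]
  refine mul_le_mul_of_nonneg_left ?_ h1.le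
  have e : nu (T a g) z - nu h z = -(T a g z - h z) / 2 := by unfold nu; ring
  rw [e, abs_div, abs_neg, abs_two]
  linarith [abs_nonneg (T a g z - h z)]

theorem gp (hp : PersStmt) (hd : DiagStmt) {I : ℝ → ℝ → ℝ → ℕ} {g h : P → ℝ} (hL : Lip g)
    (hA : Adm I g) (H : Al g h) (hE : RE h 1) (h11 : 0 < nu h (1, 1)) (h01 : 0 < nu h (0, 1))
    (h10 : nu h (-1, 0) < 0) (hq : ∀ x y : ℝ, 0 ≤ x → 0 ≤ y → nu h (-y, x) = x - y) :
    RE g 1 := by
  by_contra nE
  have nS : ¬ RS g (-1) := fun hS => by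
    have h0 : nu g (0, -1) = 0 := by unfold nu; rw [hS 1 zero_le_one]; norm_num
    have := hA.1 0 (-1)
    rw [h0] at this
    exact nE (hp I g h 1 hL H one_pos this hE h11)
  have pN : ∀ y : ℝ, 0 < y → 0 < nu g (0, y) := fun y hy => by
    obtain ⟨a, h1, h2, h3⟩ := near H (0, 1) (half_pos h01) hy
    simp only [mul_zero, mul_one] at h3
    have := hL.mono (z := (0, a)) (w := (0, y)) le_rfl h2.le
    have h4 := (abs_le.1 h3).1
    nlinarith
  have pW : ∀ x : ℝ, x < 0 → nu g (x, 0) < 0 := fun x hx => by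
    obtain ⟨a, h1, h2, h3⟩ := near H (-1, 0) (ε := -nu h (-1, 0) / 2) (δ := -x) (by linarith)
      (by linarith)
    simp only [mul_zero, mul_neg, mul_one] at h3
    have := hL.mono (z := (x, 0)) (w := (-a, 0)) (by simp only; linarith) le_rfl
    have h4 := (abs_le.1 h3).2
    nlinarith
  unfold RE at nE
  unfold RS at nS
  push Not at nE nS
  obtain ⟨x0, x1, x2⟩ := nE
  obtain ⟨y0, y1, y2⟩ := nS
  have x3 : 0 < nu g (x0, 0) := by
    have := hL.2 (x0, 0) (0, 0)
    rw [hL.1] at this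
    simp only [sub_zero, abs_zero, abs_of_nonneg x1] at this
    unfold nu; simp only
    rcases lt_or_eq_of_le (show g (x0, 0) ≤ 1 * x0 by linarith) with h | h
    · linarith
    · exact absurd h x2
  have y3 : nu g (0, -y0) < 0 := by
    have := hL.2 (0, 0) (0, -y0)
    rw [hL.1] at this
    simp only [sub_zero, abs_zero, zero_sub, neg_neg, abs_of_nonneg y1] at this
    unfold nu; simp only
    rcases lt_or_eq_of_le (show -1 * y0 ≤ g (0, -y0) by linarith) with h | h
    · linarith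
    · exact absurd h.symm y2
  obtain ⟨⟨x, y⟩, z1, z2, z3, z4⟩ := hA.2.2 (x0 + y0 + 1) (by linarith)
  simp only at z1 z3 z4
  rcases lt_trichotomy x 0 with hx | hx | hx <;> rcases lt_trichotomy y 0 with hy | hy | hy
  · have := hL.mono (z := (x, y)) (w := (x, 0)) le_rfl hy.le
    linarith [pW x hx]
  · subst hy; linarith [pW x hx]
  · have h1 := pres_swp (z4 hx hy)
    refine hd _ (swp g) (swp h) (-x) (al_swp H) (by linarith) (by rw [neg_neg]; exact h1) ?_
    intro a b ha hb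
    rw [nu_swp]; exact hq a b ha hb
  · subst hx
    rw [abs_zero, abs_of_neg hy, max_eq_right (by linarith)] at z1
    have := hL.mono (z := (0, y)) (w := (0, -y0)) le_rfl (by simp only; linarith)
    linarith
  · subst hx; subst hy; simp at z1; linarith
  · subst hx; linarith [pN y hy]
  · have := hp I g h (-y) hL H (by linarith) (by rw [neg_neg]; exact z3 hx hy) hE h11
    exact x2 (this x0 x1)
  · subst hy
    rw [abs_zero, abs_of_pos hx, max_eq_left hx.le] at z1
    have := hL.mono (z := (x0, 0)) (w := (x, 0)) (by simp only; linarith) le_rfl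
    linarith
  · have := hL.mono (z := (0, y)) (w := (x, y)) hx.le le_rfl
    linarith [pN y hy]

theorem gp' (hp : PersStmt) (hd : DiagStmt) {I : ℝ → ℝ → ℝ → ℕ} {g h : P → ℝ} (hL : Lip g)
    (hA : Adm I g) (H : Al g h) (hh : ∀ x y : ℝ, 0 ≤ y → h (x, y) = |x| - y) : RE g 1 := by
  refine gp hp hd hL hA H (fun t ht => ?_) ?_ ?_ ?_ (fun x y hx hy => ?_)
  · rw [hh t 0 le_rfl, abs_of_nonneg ht]; ring
  · unfold nu; rw [hh 1 1 zero_le_one]; norm_num
  · unfold nu; rw [hh 0 1 zero_le_one]; norm_num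
  · unfold nu; rw [hh (-1) 0 le_rfl]; norm_num
  · unfold nu; rw [hh (-y) x hx, abs_neg, abs_of_nonneg hy]; ring

/-- vertical rays from a blow-up that is `x - |y|` on the right half plane -/
theorem vert (hp : PersStmt) (hd : DiagStmt) {I : ℝ → ℝ → ℝ → ℕ} {A : (P → ℝ) → Prop}
    (hA : Cl I A) {g h : P → ℝ} (ha : A g) (H : Al g h)
    (hh : ∀ x y : ℝ, 0 ≤ x → h (x, y) = x - |y|) : RN g (-1) ∧ RS g (-1) := by
  obtain ⟨-, -, -, a1, -⟩ := hA g ha
  obtain ⟨-, -, a2, -, -⟩ := hA _ a1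
  obtain ⟨l2, d2, -, -, a3⟩ := hA _ a2
  obtain ⟨l3, d3, -⟩ := hA _ a3
  have r2 := gp' hp hd l2 d2 (al_neg (al_swp H)) (fun x y hy => by
    simp only [neg, swp]; rw [hh y x hy]; ring)
  have r3 := gp' hp hd l3 d3 (al_rfx (al_neg (al_swp H))) (fun x y hy => by
    simp only [neg, swp, rfx]; rw [hh y (-x) hy, abs_neg]; ring)
  constructor
  · intro t ht; have := r2 t ht; simp only [neg, swp] at this; linarith
  · intro t ht; have := r3 t ht; simp only [neg, swp, rfx] at this; linarith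

end ThreeA

theorem three_row (hp : PersStmt) (hd : DiagStmt) : ThreeStmt := by
  intro I A g hA ha
  obtain ⟨hL, hAd, -, -, a3⟩ := hA g ha
  constructor
  · intro H
    obtain ⟨hN, hS⟩ := ThreeA.vert hp hd hA ha H (fun x y _ => rfl)
    refine ⟨?_, hN, hS⟩
    have h0 : nu g (0, -1) = 0 := by unfold nu; rw [hS 1 zero_le_one]; norm_num
    have := hAd.1 0 (-1)
    rw [h0] at this
    refine hp I g Rg 1 hL H one_pos this (fun t _ => by simp [Rg]) ?_
    unfold nu Rg; norm_num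
  · intro H
    obtain ⟨hN, hS⟩ := ThreeA.vert hp hd hA ha H (fun x y hx => by
      simp only [S0]; rw [abs_of_nonneg hx])
    obtain ⟨l3, d3, -⟩ := hA _ a3
    refine ⟨ThreeA.gp' hp hd hL hAd H (fun x y hy => by
      simp only [S0]; rw [abs_of_nonneg hy]), ?_, hN, hS⟩
    exact ThreeA.gp' hp hd l3 d3 (al_rfx H) (fun x y hy => by
      simp only [S0, rfx]; rw [abs_of_nonneg hy, abs_neg])

end Pool.Agent.MP_151d89_pr.H55
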