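import Pool.Agent.MP_151d89_pr.H55.Glue
import Pool.Agent.MP_151d89_pr.H55.Lim
import Pool.Agent.MP_151d89_pr.H55.Min
import Pool.Agent.MP_151d89_pr.H55.Pers
import Pool.Agent.MP_151d89_pr.H55.PyrDiag
import Pool.Agent.MP_151d89_pr.H55.RowEnd
import Pool.Agent.MP_151d89_pr.H55.RowG
import Pool.Agent.MP_151d89_pr.H55.RowR
import Pool.Agent.MP_151d89_pr.H55.RowX
import Pool.Agent.MP_151d89_pr.H55.Three

/-! The large scale theorem. -/

namespace Pool.Agent.MP_151d89_pr.H55

theorem big : BigStmt :=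
  big_of lim_row (min_row lim_row) (g_row r_row) (cls_row (x_row r_row) pyr_row)
    (three_row pers_row diag_row) (end_row limSeq lim_row)

end Pool.Agent.MP_151d89_pr.H55
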