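import Pool.Agent.MP_151d89_pr.H55.Kit

/-! Assembly of the large scale block from its rows. -/

namespace Pool.Agent.MP_151d89_pr.H55

namespace GlueA

/-- the rays of `g` given a blow-up with descending vertical rays -/
theorem base (hc : ClsStmt) (ht : ThreeStmt) {I : ℝ → ℝ → ℝ → ℕ} {A : (P → ℝ) → Prop}
    (hA : Cl I A) {g h : P → ℝ} (ag : A g) (ah : A h) (H : Al g h) (hO : Om h h)
    (hN : RN h (-1)) (hS : RS h (-1)) :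
    RN g (-1) ∧ RS g (-1) ∧ (RE g 1 ∨ RW g 1) ∧ (0 ≤ h (1, 0) → RE g 1) ∧
      (0 ≤ h (-1, 0) → RW g 1) := by
  rcases hc I A h hA ah hO hN hS with rfl | rfl | rfl
  · obtain ⟨a, b, c, d⟩ := (ht I A g hA ag).2 H
    exact ⟨c, d, Or.inl a, fun _ => a, fun _ => b⟩
  · obtain ⟨a, c, d⟩ := (ht I A g hA ag).1 H
    refine ⟨c, d, Or.inl a, fun _ => a, fun hh => ?_⟩
    simp [Rg] at hh; linarith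
  · have H' := al_rfx H
    rw [rfx_rfx] at H'
    obtain ⟨a, c, d⟩ := (ht I A _ hA (hA g ag).2.2.2.2).1 H'
    have c' : RN g (-1) := fun t h0 => by simpa [rfx] using c t h0
    have d' : RS g (-1) := fun t h0 => by simpa [rfx] using d t h0
    refine ⟨c', d', Or.inr a, fun hh => ?_, fun _ => a⟩
    simp [Rg, rfx] at hh; linarith

theorem two {g : P → ℝ} {a b : ℝ} (hab : a ≠ b) :
    (RE g a → RE g b → False) ∧ (RW g a → RW g b → False) ∧ (RN g a → RN g b → False) ∧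
      (RS g a → RS g b → False) := by
  refine ⟨fun h1 h2 => hab ?_, fun h1 h2 => hab ?_, fun h1 h2 => hab ?_, fun h1 h2 => hab ?_⟩ <;>
  · have e1 := h1 1 zero_le_one
    have e2 := h2 1 zero_le_one
    linarith

theorem ng {g : P → ℝ} {a : ℝ} :
    (RE (neg g) a ↔ RE g (-a)) ∧ (RW (neg g) a ↔ RW g (-a)) ∧ (RN (neg g) a ↔ RN g (-a)) ∧
      (RS (neg g) a ↔ RS g (-a)) := by
  refine ⟨⟨fun h t ht => ?_, fun h t ht => ?_⟩, ⟨fun h t ht => ?_, fun h t ht => ?_⟩,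
    ⟨fun h t ht => ?_, fun h t ht => ?_⟩, ⟨fun h t ht => ?_, fun h t ht => ?_⟩⟩ <;>
  · have := h t ht
    simp only [neg] at this ⊢
    linarith

theorem rx {g : P → ℝ} {a : ℝ} :
    (RE (rfx g) a ↔ RW g a) ∧ (RW (rfx g) a ↔ RE g a) ∧ (RN (rfx g) a ↔ RN g a) ∧
      (RS (rfx g) a ↔ RS g a) := by
  simp [RE, RW, RN, RS, rfx]

theorem sw {g : P → ℝ} {a : ℝ} :
    (RE (swp g) a ↔ RN g a) ∧ (RW (swp g) a ↔ RS g a) ∧ (RN (swp g) a ↔ RE g a) ∧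
      (RS (swp g) a ↔ RW g a) := by
  simp [RE, RW, RN, RS, swp]

theorem pl1 {e1 e2 w1 w2 n1 n2 s1 s2 : Prop} (g0 : e1 ∨ n1 ∨ w2 ∨ s2) (g1 : e2 ∨ n2 ∨ w1 ∨ s1)
    (g2 : w1 ∨ n1 ∨ e2 ∨ s2) (g3 : w2 ∨ n2 ∨ e1 ∨ s1) (t1 : e1 → e2 → False)
    (t2 : w1 → w2 → False) (t3 : n1 → n2 → False) (t4 : s1 → s2 → False) :
    (n2 ∧ s2) ∨ (n1 ∧ s1) ∨ (e1 ∧ w1) ∨ (e2 ∧ w2) := by
  by_cases e1 <;> by_cases e2 <;> by_cases w1 <;> by_cases w2 <;> by_cases n1 <;> by_cases n2 <;>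
    simp_all

theorem pl2 {e1 e2 w1 w2 n1 n2 s1 s2 a b : Prop} (t1 : e1 → e2 → False)
    (t2 : w1 → w2 → False) (t3 : n1 → n2 → False) (t4 : s1 → s2 → False)
    (H : (n2 ∧ s2 ∧ (e1 ∨ w1) ∧ (a → w1)) ∨ (n1 ∧ s1 ∧ (e2 ∨ w2)) ∨ (e1 ∧ w1 ∧ (n2 ∨ s2)) ∨
      (e2 ∧ w2 ∧ (n1 ∨ s1) ∧ (b → s1))) :
    ((e1 ∧ n2 ∧ s2 ∨ w1 ∧ n2 ∧ s2 ∨ e1 ∧ w1 ∧ n2 ∨ e1 ∧ w1 ∧ s2) ∨
      (e2 ∧ n1 ∧ s1 ∨ w2 ∧ n1 ∧ s1 ∨ e2 ∧ w2 ∧ n1 ∨ e2 ∧ w2 ∧ s1)) ∧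
    ((e1 ∧ n2 ∧ s2 ∨ w1 ∧ n2 ∧ s2 ∨ e1 ∧ w1 ∧ n2 ∨ e1 ∧ w1 ∧ s2) → a → w1) ∧
    ((e2 ∧ n1 ∧ s1 ∨ w2 ∧ n1 ∧ s1 ∨ e2 ∧ w2 ∧ n1 ∨ e2 ∧ w2 ∧ s1) → b → s1) := by
  by_cases e1 <;> by_cases e2 <;> by_cases w1 <;> by_cases w2 <;> by_cases n1 <;> by_cases n2 <;>
    by_cases s1 <;> by_cases s2 <;> simp_all

theorem axis (hg : GStmt) {I : ℝ → ℝ → ℝ → ℕ} {A : (P → ℝ) → Prop} (hA : Cl I A) {h : P → ℝ}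
    (ah : A h) (hR : Rec h) :
    (RN h (-1) ∧ RS h (-1)) ∨ (RN h 1 ∧ RS h 1) ∨ (RE h 1 ∧ RW h 1) ∨
      (RE h (-1) ∧ RW h (-1)) := by
  obtain ⟨l0, d0, a1, -, a2⟩ := hA h ah
  obtain ⟨l1, d1, -⟩ := hA _ a1
  obtain ⟨l2, d2, a3, -⟩ := hA _ a2
  obtain ⟨l3, d3, -⟩ := hA _ a3
  have g0 := hg I h l0 hR d0.2.2
  have g1 := hg I _ l1 (rec_neg hR) d1.2.2
  have g2 := hg I _ l2 (rec_rfx hR) d2.2.2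
  have g3 := hg I _ l3 (rec_neg (rec_rfx hR)) d3.2.2
  rw [ng.1, ng.2.1, ng.2.2.1, ng.2.2.2, neg_neg] at g1 g3
  rw [rx.1, rx.2.1, rx.2.2.1, rx.2.2.2] at g2 g3
  obtain ⟨t1, t2, t3, t4⟩ := two (g := h) (a := 1) (b := -1) (by norm_num)
  exact pl1 g0 g1 g2 g3 t1 t2 t3 t4

theorem ge0 {g h : P → ℝ} (H : Al g h) (z : P)
    (hz : ∀ t : ℝ, 0 ≤ t → t ≤ 1 → 0 ≤ g (t * z.1, t * z.2)) : 0 ≤ h z := by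
  by_contra hn
  push Not at hn
  obtain ⟨a, h1, h2, h3⟩ := H {z} (-h z) 1 (by linarith) one_pos
  have h4 := (abs_lt.1 (h3 z (Finset.mem_singleton_self z))).2
  have h5 : 0 ≤ T a g z := div_nonneg (hz a h1.le h2.le) h1.le
  linarith

theorem fin3 (hg : GStmt) (hc : ClsStmt) (ht : ThreeStmt) {I : ℝ → ℝ → ℝ → ℕ}
    {A : (P → ℝ) → Prop} (hA : Cl I A) {g h : P → ℝ} (ag : A g) (ah : A h) (H : Al g h)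
    (hR : Rec h) : Fin3 g := by
  obtain ⟨t1, t2, t3, t4⟩ := two (g := g) (a := 1) (b := -1) (by norm_num)
  have w0 : (∀ t : ℝ, 0 ≤ t → t ≤ 1 → 0 ≤ g (-t, 0)) → 0 ≤ h (-1, 0) := fun hz =>
    ge0 H (-1, 0) fun t h0 h1 => by simpa using hz t h0 h1
  have s0 : (∀ t : ℝ, 0 ≤ t → t ≤ 1 → 0 ≤ g (0, -t)) → 0 ≤ h (0, -1) := fun hz =>
    ge0 H (0, -1) fun t h0 h1 => by simpa using hz t h0 h1
  obtain ⟨-, -, g1, g2, -⟩ := hA g ag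
  obtain ⟨-, -, h1, h2, -⟩ := hA h ah
  obtain ⟨-, -, g3, -⟩ := hA _ g2
  obtain ⟨-, -, h3, -⟩ := hA _ h2
  unfold Fin3 Three
  rw [ng.1, ng.2.1, ng.2.2.1, ng.2.2.2, neg_neg]
  refine pl2 t1 t2 t3 t4 ?_
  rcases axis hg hA ah hR with ⟨a, b⟩ | ⟨a, b⟩ | ⟨a, b⟩ | ⟨a, b⟩
  · obtain ⟨r1, r2, r3, -, r5⟩ := base hc ht hA ag ah H hR.1 a b
    exact Or.inl ⟨r1, r2, r3, fun hz => r5 (w0 hz)⟩
  · obtain ⟨r1, r2, r3, -, -⟩ := base hc ht hA g1 h1 (al_neg H) (om_neg hR.1)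
      (ng.2.2.1.2 (by rwa [neg_neg])) (ng.2.2.2.2 (by rwa [neg_neg]))
    rw [ng.1, ng.2.1] at r3
    rw [ng.2.2.1, neg_neg] at r1
    rw [ng.2.2.2, neg_neg] at r2
    exact Or.inr (Or.inl ⟨r1, r2, r3⟩)
  · obtain ⟨r1, r2, r3, -, -⟩ := base hc ht hA g3 h3 (al_neg (al_swp H)) (om_neg (om_swp hR.1))
      (ng.2.2.1.2 (sw.2.2.1.2 (by rwa [neg_neg]))) (ng.2.2.2.2 (sw.2.2.2.2 (by rwa [neg_neg])))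
    rw [ng.1, ng.2.1, sw.1, sw.2.1] at r3
    rw [ng.2.2.1, neg_neg, sw.2.2.1] at r1
    rw [ng.2.2.2, neg_neg, sw.2.2.2] at r2
    exact Or.inr (Or.inr (Or.inl ⟨r1, r2, r3⟩))
  · obtain ⟨r1, r2, r3, -, r5⟩ := base hc ht hA g2 h2 (al_swp H) (om_swp hR.1)
      (sw.2.2.1.2 a) (sw.2.2.2.2 b)
    rw [sw.1, sw.2.1] at r3
    rw [sw.2.2.1] at r1
    rw [sw.2.2.2] at r2
    rw [sw.2.1] at r5
    have r6 : 0 ≤ h (0, -1) → RS g 1 := r5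
    exact Or.inr (Or.inr (Or.inr ⟨r1, r2, r3, fun hz => r6 (s0 hz)⟩))

end GlueA

theorem big_of (hl : LimStmt) (hm : MinStmt) (hg : GStmt) (hc : ClsStmt) (ht : ThreeStmt)
    (he : EndStmt) : BigStmt := by
  intro I C c1 c2 c3 c4 c5 l hC
  have hA : Cl I (fun h => ∃ l 𝒰, C l ∧ Lim l 𝒰 h) := by
    rintro h ⟨l', 𝒰, h1, h2⟩
    exact ⟨hl.1 l' 𝒰 h (c1 _ h1) h2, c5 l' 𝒰 h h1 h2,
      ⟨_, 𝒰, c2 _ h1, hl.2.2.1 l' 𝒰 h (c1 _ h1) h2⟩,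
      ⟨_, 𝒰, c3 _ h1, hl.2.2.2.1 l' 𝒰 h (c1 _ h1) h2⟩,
      ⟨_, 𝒰, c4 _ h1, hl.2.2.2.2 l' 𝒰 h (c1 _ h1) h2⟩⟩
  refine he l (c1 l hC) fun 𝒰 g hg' => ?_
  obtain ⟨𝒱, h, h1, h2, h3⟩ := hm l 𝒰 g (c1 l hC) hg'
  exact GlueA.fin3 hg hc ht hA ⟨l, 𝒰, hC, hg'⟩ ⟨l, 𝒱, hC, h1⟩ h2 h3

end Pool.Agent.MP_151d89_pr.H55
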