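import Pool.Agent.MP_151d89_pr.H55.Spec

/-! Basic facts and symmetries for the large scale block. -/

namespace Pool.Agent.MP_151d89_pr.H55

open Filter Topology

theorem Lip.abs {h : P → ℝ} (hL : Lip h) (z w : P) :
    |h z - h w| ≤ |z.1 - w.1| + |z.2 - w.2| := by
  have h1 := hL.2 z w
  have h2 := hL.2 w z
  rw [abs_sub_comm w.1, abs_sub_comm w.2] at h2
  exact abs_le.2 ⟨by linarith, h1⟩

theorem Lip.mono {h : P → ℝ} (hL : Lip h) {z w : P} (h1 : z.1 ≤ w.1) (h2 : z.2 ≤ w.2) :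
    nu h z ≤ nu h w := by
  have := hL.2 w z
  rw [abs_of_nonneg (by linarith), abs_of_nonneg (by linarith)] at this
  unfold nu; linarith

theorem Lip.up {h : P → ℝ} (hL : Lip h) {z w : P} (h1 : z.1 ≤ w.1) (h2 : z.2 ≤ w.2) :
    nu h w ≤ nu h z + (w.1 - z.1) + (w.2 - z.2) := by
  have := hL.2 z w
  rw [abs_of_nonpos (by linarith), abs_of_nonpos (by linarith)] at this
  unfold nu; linarith

theorem Lip.nu0 {h : P → ℝ} (hL : Lip h) : nu h (0, 0) = 0 := by
  unfold nu; rw [hL.1]; norm_num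

theorem Lip.cont {h : P → ℝ} (hL : Lip h) : Continuous h := by
  have : LipschitzWith 2 h := by
    refine LipschitzWith.of_dist_le_mul fun z w => ?_
    have h1 : |z.1 - w.1| ≤ dist z w := by
      rw [← Real.dist_eq, Prod.dist_eq]; exact le_max_left _ _
    have h2 : |z.2 - w.2| ≤ dist z w := by
      rw [← Real.dist_eq, Prod.dist_eq]; exact le_max_right _ _
    have := hL.abs z w
    rw [Real.dist_eq]; push_cast; linarith
  exact this.continuous

theorem Lip.cont_nu {h : P → ℝ} (hL : Lip h) : Continuous (nu h) := by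
  have := hL.cont
  unfold nu; fun_prop

theorem nu_T (a : ℝ) (ha : a ≠ 0) (h : P → ℝ) (z : P) :
    nu h (a * z.1, a * z.2) = a * nu (T a h) z := by
  unfold nu T; field_simp

theorem lip_neg {h : P → ℝ} (hL : Lip h) : Lip (neg h) := by
  refine ⟨by simp [neg, hL.1], fun z w => ?_⟩
  have := hL.2 w z
  rw [abs_sub_comm w.1, abs_sub_comm w.2] at this
  simp only [neg]; linarith

theorem lip_swp {h : P → ℝ} (hL : Lip h) : Lip (swp h) := by
  refine ⟨by simp [swp, hL.1], fun z w => ?_⟩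
  have := hL.2 (z.2, z.1) (w.2, w.1)
  simp only [swp]; linarith

theorem lip_rfx {h : P → ℝ} (hL : Lip h) : Lip (rfx h) := by
  refine ⟨by simp [rfx, hL.1], fun z w => ?_⟩
  have := hL.2 (-z.1, z.2) (-w.1, w.2)
  have e : |(-z.1) - (-w.1)| = |z.1 - w.1| := by
    rw [← abs_neg]; congr 1; ring
  simp only [rfx]; simp only [e] at this; linarith

theorem nu_swp (h : P → ℝ) (z : P) : nu (swp h) z = nu h (z.2, z.1) := by
  unfold nu swp; simp only; ring

theorem neg_neg' (h : P → ℝ) : neg (neg h) = h := by funext z; simp [neg]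
theorem swp_swp (h : P → ℝ) : swp (swp h) = h := by funext z; simp [swp]
theorem rfx_rfx (h : P → ℝ) : rfx (rfx h) = h := by funext z; simp [rfx]

theorem al_neg {g h : P → ℝ} (H : Al g h) : Al (neg g) (neg h) := by
  intro s ε δ hε hδ
  obtain ⟨a, h1, h2, h3⟩ := H s ε δ hε hδ
  refine ⟨a, h1, h2, fun z hz => ?_⟩
  have := h3 z hz
  rw [← abs_neg] at this
  convert this using 2
  simp only [T, neg]; ring

theorem al_swp {g h : P → ℝ} (H : Al g h) : Al (swp g) (swp h) := by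
  classical
  intro s ε δ hε hδ
  obtain ⟨a, h1, h2, h3⟩ := H (s.image fun z => (z.2, z.1)) ε δ hε hδ
  exact ⟨a, h1, h2, fun z hz => h3 (z.2, z.1) (Finset.mem_image_of_mem _ hz)⟩

theorem al_rfx {g h : P → ℝ} (H : Al g h) : Al (rfx g) (rfx h) := by
  classical
  intro s ε δ hε hδ
  obtain ⟨a, h1, h2, h3⟩ := H (s.image fun z => (-z.1, z.2)) ε δ hε hδ
  refine ⟨a, h1, h2, fun z hz => ?_⟩
  have := h3 (-z.1, z.2) (Finset.mem_image_of_mem _ hz)
  simpa [T, rfx] using this

theorem om_neg {g h : P → ℝ} (H : Om g h) : Om (neg g) (neg h) := by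
  intro s ε δ hε
  obtain ⟨a, h1, h2, h3⟩ := H s ε δ hε
  refine ⟨a, h1, h2, fun z hz => ?_⟩
  have := h3 z hz
  rw [← abs_neg] at this
  convert this using 2
  simp only [T, neg]; ring

theorem om_swp {g h : P → ℝ} (H : Om g h) : Om (swp g) (swp h) := by
  classical
  intro s ε δ hε
  obtain ⟨a, h1, h2, h3⟩ := H (s.image fun z => (z.2, z.1)) ε δ hε
  exact ⟨a, h1, h2, fun z hz => h3 (z.2, z.1) (Finset.mem_image_of_mem _ hz)⟩

theorem om_rfx {g h : P → ℝ} (H : Om g h) : Om (rfx g) (rfx h) := by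
  classical
  intro s ε δ hε
  obtain ⟨a, h1, h2, h3⟩ := H (s.image fun z => (-z.1, z.2)) ε δ hε
  refine ⟨a, h1, h2, fun z hz => ?_⟩
  have := h3 (-z.1, z.2) (Finset.mem_image_of_mem _ hz)
  simpa [T, rfx] using this

theorem rec_neg {h : P → ℝ} (H : Rec h) : Rec (neg h) := by
  refine ⟨om_neg H.1, fun e he s hs => ?_⟩
  have hs' : -s = 1 ∨ -s = -1 := by rcases hs with rfl | rfl <;> simp
  rcases H.2 e he (-s) hs' with h1 | ⟨c, hc, h1⟩
  · left; intro t ht; simp only [neg]; rw [h1 t ht]; ring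
  · right; refine ⟨c, hc, fun t ht => ?_⟩
    have := h1 t ht; simp only [neg]; linarith

theorem rec_swp {h : P → ℝ} (H : Rec h) : Rec (swp h) := by
  refine ⟨om_swp H.1, fun e he s hs => ?_⟩
  have he' : ((e.2, e.1) : P) = (1, 0) ∨ ((e.2, e.1) : P) = (-1, 0) ∨ ((e.2, e.1) : P) = (0, 1) ∨
      ((e.2, e.1) : P) = (0, -1) := by rcases he with rfl | rfl | rfl | rfl <;> simp
  exact H.2 (e.2, e.1) he' s hs

theorem rec_rfx {h : P → ℝ} (H : Rec h) : Rec (rfx h) := by
  refine ⟨om_rfx H.1, fun e he s hs => ?_⟩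
  have he' : ((-e.1, e.2) : P) = (1, 0) ∨ ((-e.1, e.2) : P) = (-1, 0) ∨
      ((-e.1, e.2) : P) = (0, 1) ∨ ((-e.1, e.2) : P) = (0, -1) := by
    rcases he with rfl | rfl | rfl | rfl <;> simp
  have := H.2 (-e.1, e.2) he' s hs
  simpa [rfx] using this

theorem pres_swp {I : ℝ → ℝ → ℝ → ℕ} {h : P → ℝ} {X Y n0 : ℝ} (H : Pres I (nu h) X Y n0) :
    Pres (fun a b r => I b a r) (nu (swp h)) Y X n0 := by
  constructor
  · intro a b c d p q k1 k' k2 h0 h1 h2 h3 u1 u2 u3 u4 u5 u6 n1 n2 n3 n4 n5 n6 r1 r2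
    simp only [nu_swp] at n1 n2 n3 n4 n5 n6
    simp only [U] at u1 u2 u3 u5 u6 ⊢
    have := H.1 (b.2, b.1) (a.2, a.1) (c.2, c.1) (d.2, d.1) (q.2, q.1) (p.2, p.1) k1 k' k2 h0 h1 h2 h3
      (by simp only [U]; linarith) (by simp only [U]; linarith) (by simp only [U]; linarith)
      (by simp only; linarith) (by simp only [U]; linarith) (by simp only [U]; linarith)
      n2 n1 n3 n4 n6 n5 r2 r1
    simp only [U] at this
    have e : c.1 - d.1 = c.2 - d.2 := by linarith
    rw [e] at this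
    convert this using 1 <;> ring
  · intro al be r o k1 k2 h1 h2 h3 h4 h5 h6 h7 h8 h9
    simp only at h8 h9
    refine H.2 be al r (o.2 - I be al r * (k2 - k1) * be, o.1 + I be al r * (k2 - k1) * al) k1 k2
      h2 h1 h3 h4 h5 h6 h8 (by simp only; linarith) fun i hi => ?_
    have := h9 (I be al r - i) (Nat.sub_le _ _)
    rw [Nat.cast_sub hi] at this
    simp only [nu_swp] at this
    constructor
    · convert this.1 using 3 <;> ring
    · convert this.2 using 3 <;> ring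

end Pool.Agent.MP_151d89_pr.H55
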