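import Pool.Agent.MP_151d89_pr.H55.Defs

/-! Rows of the large scale block. -/

namespace Pool.Agent.MP_151d89_pr.H55

open Filter Topology

noncomputable def T (a : ℝ) (h : P → ℝ) : P → ℝ := fun z => h (a * z.1, a * z.2) / a
def neg (h : P → ℝ) : P → ℝ := fun z => -h z
def swp (h : P → ℝ) : P → ℝ := fun z => h (z.2, z.1)
def rfx (h : P → ℝ) : P → ℝ := fun z => h (-z.1, z.2)

/-- tight axis rays with slope `s` -/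
def RE (h : P → ℝ) (s : ℝ) : Prop := ∀ t : ℝ, 0 ≤ t → h (t, 0) = s * t
def RW (h : P → ℝ) (s : ℝ) : Prop := ∀ t : ℝ, 0 ≤ t → h (-t, 0) = s * t
def RN (h : P → ℝ) (s : ℝ) : Prop := ∀ t : ℝ, 0 ≤ t → h (0, t) = s * t
def RS (h : P → ℝ) (s : ℝ) : Prop := ∀ t : ℝ, 0 ≤ t → h (0, -t) = s * t

/-- `h` is a limit of blow-ups of `g` -/
def Al (g h : P → ℝ) : Prop :=
  ∀ (s : Finset P) (ε δ : ℝ), 0 < ε → 0 < δ → ∃ a, 0 < a ∧ a < δ ∧ ∀ z ∈ s, |T a g z - h z| < ε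
/-- `h` is a limit of blow-downs of `g` -/
def Om (g h : P → ℝ) : Prop :=
  ∀ (s : Finset P) (ε δ : ℝ), 0 < ε → ∃ a, 0 < a ∧ δ < a ∧ ∀ z ∈ s, |T a g z - h z| < ε

/-- recurrent, and every axis ray is tight or uniformly not tight -/
def Rec (h : P → ℝ) : Prop :=
  Om h h ∧ ∀ e : P, (e = (1, 0) ∨ e = (-1, 0) ∨ e = (0, 1) ∨ e = (0, -1)) → ∀ s : ℝ,
    (s = 1 ∨ s = -1) → (∀ t : ℝ, 0 ≤ t → h (t * e.1, t * e.2) = s * t) ∨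
      ∃ c : ℝ, 0 < c ∧ ∀ t : ℝ, 0 ≤ t → s * h (t * e.1, t * e.2) ≤ (1 - c) * t

/-- a class of admissible profiles closed under the symmetries -/
def Cl (I : ℝ → ℝ → ℝ → ℕ) (A : (P → ℝ) → Prop) : Prop :=
  ∀ h, A h → Lip h ∧ Adm I h ∧ A (neg h) ∧ A (swp h) ∧ A (rfx h)

def S0 : P → ℝ := fun z => |z.1| - |z.2|
def Rg : P → ℝ := fun z => z.1 - |z.2|

/-- three rays of the saddle `|x| - |y|` -/
def Three (g : P → ℝ) : Prop :=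
  (RE g 1 ∧ RN g (-1) ∧ RS g (-1)) ∨ (RW g 1 ∧ RN g (-1) ∧ RS g (-1)) ∨
  (RE g 1 ∧ RW g 1 ∧ RN g (-1)) ∨ (RE g 1 ∧ RW g 1 ∧ RS g (-1))

/-- row LIM -/
def LimStmt : Prop :=
  (∀ l 𝒰 h, LipZ l → Lim l 𝒰 h → Lip h) ∧
  (∀ (l : ℤ × ℤ → ℝ) (𝒰 : Ultrafilter ℝ), LipZ l → (𝒰 : Filter ℝ) ≤ atTop → ∃ h, Lim l 𝒰 h) ∧
  (∀ l 𝒰 h, LipZ l → Lim l 𝒰 h → Lim (fun z => -l z) 𝒰 (neg h)) ∧
  (∀ l 𝒰 h, LipZ l → Lim l 𝒰 h → Lim (fun z => l (z.2, z.1)) 𝒰 (swp h)) ∧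
  (∀ l 𝒰 h, LipZ l → Lim l 𝒰 h → Lim (fun z => l (-z.1, z.2)) 𝒰 (rfx h))

/-- row MIN: a minimal set inside the blow-ups of `g` -/
def MinStmt : Prop :=
  ∀ l 𝒰 g, LipZ l → Lim l 𝒰 g → ∃ 𝒱 h, Lim l 𝒱 h ∧ Al g h ∧ Rec h

/-- row R -/
def RStmt : Prop :=
  ∀ I h, Lip h → Om h h → ¬ RE h 1 → (∀ b : ℝ, ∃ b', b ≤ b' ∧ Pres I (nu h) 0 (-b') 0) →
    ∀ al be : ℝ, 0 < al → 0 < be → ∃ t, 0 < t ∧ 0 < nu h (t * al, -(t * be))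

/-- row G: one generator gives a ray -/
def GStmt : Prop :=
  ∀ I h, Lip h → Rec h → G1 I (nu h) → RE h 1 ∨ RN h 1 ∨ RW h (-1) ∨ RS h (-1)

/-- row X -/
def XStmt : Prop :=
  ∀ I h, Lip h → Om h h → Adm I h → RN h (-1) → RS h (-1) → ¬ RE h 1 →
    ∀ x y : ℝ, 0 ≤ x → 0 ≤ y → h (x, -y) = -x - y

/-- row PYR -/
def PyrStmt : Prop := ∀ I h, Free I (nu h) → h ≠ fun z => -|z.1| - |z.2|

/-- row CLS: recurrent profiles with descending vertical rays -/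
def ClsStmt : Prop :=
  ∀ I A h, Cl I A → A h → Om h h → RN h (-1) → RS h (-1) → h = S0 ∨ h = Rg ∨ h = rfx Rg

/-- row PERS -/
def PersStmt : Prop :=
  ∀ I g h (b : ℝ), Lip g → Al g h → 0 < b → Pres I (nu g) 0 (-b) 0 →
    RE h 1 → 0 < nu h (1, 1) → RE g 1

/-- row DIAG: no packed diagonal quadrant in a blow-up -/
def DiagStmt : Prop :=
  ∀ I g h (b : ℝ), Al g h → 0 < b → Pres I (nu g) 0 (-b) 0 →
    (∀ x y : ℝ, 0 ≤ x → 0 ≤ y → nu h (x, -y) = x - y) → False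

/-- row THREE -/
def ThreeStmt : Prop :=
  ∀ I A g, Cl I A → A g →
    (Al g Rg → RE g 1 ∧ RN g (-1) ∧ RS g (-1)) ∧
    (Al g S0 → RE g 1 ∧ RW g 1 ∧ RN g (-1) ∧ RS g (-1))

/-- what the end game uses about every limit profile `g` -/
def Fin3 (g : P → ℝ) : Prop :=
  (Three g ∨ Three (neg g)) ∧
  (Three g → (∀ t : ℝ, 0 ≤ t → t ≤ 1 → 0 ≤ g (-t, 0)) → RW g 1) ∧
  (Three (neg g) → (∀ t : ℝ, 0 ≤ t → t ≤ 1 → 0 ≤ g (0, -t)) → RS g 1)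

/-- row END -/
def EndStmt : Prop :=
  ∀ l, LipZ l → (∀ 𝒰 g, Lim l 𝒰 g → Fin3 g) → ∃ e : ℤ × ℤ, |e.1| + |e.2| = 1 ∧
    ∀ ε : ℝ, 0 < ε → ∀ᶠ n : ℕ in atTop, (1 - ε) * n ≤ l ((n : ℤ) • e)

end Pool.Agent.MP_151d89_pr.H55
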